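import Pool.Agent.D0H53.AQ.Det

set_option autoImplicit false

/-!
# Partial quotients of almost all members of a finite set of real numbers
-/

namespace Pool.Agent.D0H53.AQ

open Finset Filter
open Pool.Agent.H49.LM (G log_series')

open Classical in
/-- almost all members of a finite set `S` satisfy the two bounds of `sum_of_bounds_t`, if the members which are close
to fractions with a given denominator are few -/
theorem abs_core (θ a η : ℝ) (hθ : 0 < θ) (ha : 0 < a) (hη : 0 < η) : ∃ K C1 P : ℝ, 0 < K ∧ 0 < C1 ∧ 0 < P ∧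
    ∀ (S : Finset ℝ) (M : ℕ) (e : ℕ → ℝ) (Λ : ℝ), 1 ≤ Λ → (∀ q ∈ Icc 1 M, 0 ≤ e q) →
      (∀ q ∈ Icc 1 M, Real.log ((q : ℝ) + 1) ^ 2 ≤ Λ) → P * Λ * ∑ q ∈ Icc 1 M, e q ≤ 1 →
      (∀ q ∈ Icc 1 M, ∀ δ : ℝ, 0 ≤ δ → δ * q ≤ 1 →
        ((S.filter fun x : ℝ => ∃ p : ℤ, |(q : ℝ) * x - p| ≤ δ).card : ℝ) ≤ a * S.card * δ + S.card * e q) →
      ((S.filter (fun x : ℝ => ¬ ((∀ q ∈ Icc 1 M, ∀ p : ℤ,
        1 / (K * q * Real.log ((q : ℝ) + 1) ^ 2) < |(q : ℝ) * x - p|) ∧
        ∑ q ∈ Icc 1 M, (G ⌈K * Real.log ((q : ℝ) + 1) ^ 2⌉₊ q x : ℝ) /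
          Real.log ((q : ℝ) + 1) ^ (1 + 2 * θ) ≤ C1))).card : ℝ) ≤ η * S.card := by
  have hlog2 : 0 < Real.log 2 := Real.log_pos (by norm_num)
  have hlog2' : (0.69 : ℝ) < Real.log 2 := by
    have := Real.log_two_gt_d9
    linarith
  obtain ⟨Z2, hZ20, hZ2⟩ := log_series' 1 one_pos
  obtain ⟨Z7, hZ70, hZ7⟩ := log_series' θ hθ
  set K : ℝ := 4 * a * (Z2 + 1) / η + 3 with hK
  have hK0 : 0 < K := by positivity
  have hK3 : 3 ≤ K := by
    have : 0 ≤ 4 * a * (Z2 + 1) / η := by positivity
    linarith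
  obtain ⟨A, hA0, hA⟩ := log_ceil_t θ K hθ hK0
  set ℓ : ℝ := 1 / Real.log 2 ^ (1 + 2 * θ) with hℓ
  have hℓ0 : 0 < ℓ := by positivity
  set P : ℝ := A * ℓ + 4 / η with hP
  have hP0 : 0 < P := by positivity
  set C1 : ℝ := (a * A * Z7 + 1) * (2 / η) with hC1
  have hC10 : 0 < C1 := by positivity
  refine ⟨K, C1, P, hK0, hC10, hP0, fun S M e Λ hΛ1 he0 hLΛ hPR hcnt => ?_⟩
  set N : ℝ := (S.card : ℝ) with hN
  have hN0 : 0 ≤ N := Nat.cast_nonneg _
  set R : ℝ := ∑ q ∈ Icc 1 M, e q with hRdef
  have hR0 : 0 ≤ R := sum_nonneg he0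
  set L : ℕ → ℝ := fun q => Real.log ((q : ℝ) + 1) with hL
  have hLlow : ∀ q : ℕ, 1 ≤ q → Real.log 2 ≤ L q := by
    intro q hq
    have : (1 : ℝ) ≤ q := by exact_mod_cast hq
    exact Real.log_le_log (by norm_num) (by linarith)
  set Sq : ℕ → ℝ → Finset ℝ := fun q δ => S.filter (fun x : ℝ => ∃ p : ℤ, |(q : ℝ) * x - p| ≤ δ) with hSq
  set bad1 : Finset ℝ := (Icc 1 M).biUnion (fun q => Sq q (1 / (K * q * L q ^ 2))) with hbad1
  set W : ℝ → ℝ := fun x => ∑ q ∈ Icc 1 M, (G ⌈K * L q ^ 2⌉₊ q x : ℝ) / L q ^ (1 + 2 * θ) with hW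
  set bad2 : Finset ℝ := S.filter (fun x => C1 < W x) with hbad2
  have hsub : S.filter (fun x : ℝ => ¬ ((∀ q ∈ Icc 1 M, ∀ p : ℤ,
        1 / (K * q * Real.log ((q : ℝ) + 1) ^ 2) < |(q : ℝ) * x - p|) ∧
        ∑ q ∈ Icc 1 M, (G ⌈K * Real.log ((q : ℝ) + 1) ^ 2⌉₊ q x : ℝ) /
          Real.log ((q : ℝ) + 1) ^ (1 + 2 * θ) ≤ C1)) ⊆ bad1 ∪ bad2 := by
    intro m hm
    rw [mem_filter] at hm
    obtain ⟨hmN, hnot⟩ := hm
    rw [mem_union]
    by_cases h1 : ∀ q ∈ Icc 1 M, ∀ p : ℤ, 1 / (K * q * Real.log ((q : ℝ) + 1) ^ 2) < |(q : ℝ) * m - p|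
    · right
      rw [hbad2, mem_filter]
      refine ⟨hmN, ?_⟩
      by_contra h2
      exact hnot ⟨h1, not_lt.1 h2⟩
    · left
      push Not at h1
      obtain ⟨q, hq, p, hp⟩ := h1
      rw [hbad1, mem_biUnion]
      refine ⟨q, hq, ?_⟩
      rw [hSq]
      simp only [mem_filter]
      exact ⟨hmN, p, hp⟩
  have hΛ0 : 0 < Λ := by linarith
  -- the first exceptional set
  have hR1 : R ≤ η / 4 := by
    have h2 : 4 / η * R ≤ 1 := by
      calc 4 / η * R ≤ P * R := by
            apply mul_le_mul_of_nonneg_right _ hR0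
            rw [hP]
            have : 0 ≤ A * ℓ := by positivity
            linarith
        _ ≤ P * Λ * R := by
            apply mul_le_mul_of_nonneg_right _ hR0
            exact le_mul_of_one_le_right hP0.le hΛ1
        _ ≤ 1 := hPR
    rw [div_mul_eq_mul_div, div_le_iff₀ hη] at h2
    linarith
  have hb1 : (bad1.card : ℝ) ≤ η / 2 * N := by
    calc (bad1.card : ℝ) ≤ ((∑ q ∈ Icc 1 M, (Sq q (1 / (K * q * L q ^ 2))).card : ℕ) : ℝ) := by
          exact_mod_cast card_biUnion_le
      _ = ∑ q ∈ Icc 1 M, ((Sq q (1 / (K * q * L q ^ 2))).card : ℝ) := by push_cast; rfl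
      _ ≤ ∑ q ∈ Icc 1 M, (a * N * (1 / (K * q * L q ^ 2)) + N * e q) := by
          apply sum_le_sum
          intro q hq
          have hq' := mem_Icc.1 hq
          have hq0 : (0 : ℝ) < q := by exact_mod_cast hq'.1
          have hLq := hLlow q hq'.1
          have hLq0 : 0 < L q := lt_of_lt_of_le hlog2 hLq
          apply hcnt q hq
          · positivity
          · rw [one_div_mul_eq_div, div_le_one (by positivity)]
            have h1 : (0.69 : ℝ) ^ 2 ≤ L q ^ 2 := pow_le_pow_left₀ (by norm_num) (by linarith) 2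
            have h2 : 1 ≤ K * L q ^ 2 := by nlinarith
            calc (q : ℝ) = 1 * q := (one_mul _).symm
              _ ≤ (K * L q ^ 2) * q := mul_le_mul_of_nonneg_right h2 hq0.le
              _ = K * q * L q ^ 2 := by ring
      _ = a * N / K * ∑ q ∈ Icc 1 M, 1 / ((q : ℝ) * Real.log ((q : ℝ) + 1) ^ ((1 : ℝ) + 1)) +
          N * R := by
          rw [sum_add_distrib, mul_sum, hRdef, mul_sum]
          congr 1
          apply sum_congr rfl
          intro q hq
          rw [show ((1 : ℝ) + 1) = ((2 : ℕ) : ℝ) by norm_num, Real.rpow_natCast]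
          show a * N * (1 / (K * q * Real.log ((q : ℝ) + 1) ^ 2)) = _
          rw [mul_one_div, mul_one_div, div_div, ← mul_assoc]
      _ ≤ a * N / K * Z2 + N * (η / 4) := by
          apply add_le_add
          · exact mul_le_mul_of_nonneg_left (hZ2 M) (by positivity)
          · exact mul_le_mul_of_nonneg_left hR1 hN0
      _ ≤ N * (η / 4) + N * (η / 4) := by
          have h1 : a * N / K * Z2 ≤ N * (η / 4) := by
            have h2 : a * Z2 / K ≤ η / 4 := by
              rw [div_le_iff₀ hK0, hK]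
              have h3 : η / 4 * (4 * a * (Z2 + 1) / η + 3) = a * (Z2 + 1) + η / 4 * 3 := by
                field_simp
              rw [h3]
              have : 0 ≤ η / 4 * 3 := by positivity
              nlinarith
            calc a * N / K * Z2 = N * (a * Z2 / K) := by ring
              _ ≤ N * (η / 4) := mul_le_mul_of_nonneg_left h2 hN0
          linarith
      _ = η / 2 * N := by ring
  -- the second exceptional set
  have hGsum : ∀ q ∈ Icc 1 M, ∑ x ∈ S, (G ⌈K * L q ^ 2⌉₊ q x : ℝ) ≤
      a * N / q * (A * L q ^ θ) + N * (A * L q ^ 2) * e q := by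
    intro q hq
    have hq' := mem_Icc.1 hq
    have hq0 : (0 : ℝ) < q := by exact_mod_cast hq'.1
    set T : ℕ := ⌈K * L q ^ 2⌉₊ with hT
    have hAq := hA (L q) (hLlow q hq'.1)
    have heq := he0 q hq
    have e1 : ∀ x : ℝ, (G T q x : ℝ) = ∑ t ∈ Icc 1 T,
        (if (∃ p : ℤ, |(q : ℝ) * x - p| ≤ 1 / ((q : ℝ) * t)) then (1 : ℝ) else 0) := by
      intro x
      rw [G, sum_boole]
    have e2 : ∀ t : ℕ, ∑ x ∈ S,
        (if (∃ p : ℤ, |(q : ℝ) * x - p| ≤ 1 / ((q : ℝ) * t)) then (1 : ℝ) else 0) =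
          ((Sq q (1 / ((q : ℝ) * t))).card : ℝ) := by
      intro t
      rw [sum_boole]
    calc ∑ x ∈ S, (G T q x : ℝ)
        = ∑ t ∈ Icc 1 T, ((Sq q (1 / ((q : ℝ) * t))).card : ℝ) := by
          rw [sum_congr rfl (fun x _ => e1 x), sum_comm]
          exact sum_congr rfl fun t _ => e2 t
      _ ≤ ∑ t ∈ Icc 1 T, (a * N * (1 / ((q : ℝ) * t)) + N * e q) := by
          apply sum_le_sum
          intro t ht
          rw [mem_Icc] at ht
          have ht1 : (1 : ℝ) ≤ t := by exact_mod_cast ht.1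
          apply hcnt q hq _ (by positivity)
          rw [one_div_mul_eq_div, div_le_one (by positivity)]
          exact le_mul_of_one_le_right hq0.le ht1
      _ = a * N / q * ∑ t ∈ Icc 1 T, ((t : ℝ))⁻¹ + N * T * e q := by
          rw [sum_add_distrib, sum_const, Nat.card_Icc, Nat.add_sub_cancel, nsmul_eq_mul, mul_sum]
          congr 1
          · apply sum_congr rfl
            intro t _
            rw [one_div, mul_inv]
            ring
          · ring
      _ ≤ a * N / q * (1 + Real.log T) + N * T * e q := by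
          have h1 := harmonic_le_one_add_log T
          rw [harmonic_eq_sum_Icc] at h1
          push_cast at h1
          have := mul_le_mul_of_nonneg_left h1 (show 0 ≤ a * N / q by positivity)
          linarith
      _ ≤ a * N / q * (A * L q ^ θ) + N * (A * L q ^ 2) * e q := by
          apply add_le_add
          · exact mul_le_mul_of_nonneg_left hAq.1 (by positivity)
          · apply mul_le_mul_of_nonneg_right _ heq
            exact mul_le_mul_of_nonneg_left hAq.2 hN0
  have hWsum : ∑ x ∈ S, W x ≤ (a * A * Z7 + 1) * N := by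
    calc ∑ x ∈ S, W x = ∑ q ∈ Icc 1 M, (∑ x ∈ S, (G ⌈K * L q ^ 2⌉₊ q x : ℝ)) / L q ^ (1 + 2 * θ) := by
          rw [hW]
          simp only
          rw [sum_comm]
          exact sum_congr rfl fun q _ => (sum_div _ _ _).symm
      _ ≤ ∑ q ∈ Icc 1 M, (a * A * N * (1 / ((q : ℝ) * Real.log ((q : ℝ) + 1) ^ (1 + θ))) +
          A * ℓ * Λ * N * e q) := by
          apply sum_le_sum
          intro q hq
          have hG := hGsum q hq
          have hL2 : L q ^ 2 ≤ Λ := hLΛ q hq
          have heq := he0 q hq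
          rw [mem_Icc] at hq
          have hq0 : (0 : ℝ) < q := by exact_mod_cast hq.1
          have hLq := hLlow q hq.1
          have hLq0 : 0 < L q := lt_of_lt_of_le hlog2 hLq
          have hL43 : 0 < L q ^ (1 + 2 * θ) := by positivity
          have hinv : (L q ^ (1 + 2 * θ))⁻¹ ≤ ℓ := by
            rw [hℓ, ← one_div]
            apply one_div_le_one_div_of_le (by positivity)
            exact Real.rpow_le_rpow hlog2.le hLq (by positivity)
          have e3 : L q ^ θ / L q ^ (1 + 2 * θ) =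
              1 / Real.log ((q : ℝ) + 1) ^ (1 + θ) := by
            show L q ^ θ / L q ^ (1 + 2 * θ) = 1 / L q ^ (1 + θ)
            have h43 : 1 + 2 * θ = θ + (1 + θ) := by ring
            rw [h43, Real.rpow_add hLq0]
            have hne : L q ^ θ ≠ 0 := (Real.rpow_pos_of_pos hLq0 _).ne'
            have hne2 : L q ^ (1 + θ) ≠ 0 := (Real.rpow_pos_of_pos hLq0 _).ne'
            rw [div_eq_div_iff (mul_ne_zero hne hne2) hne2]
            ring
          calc (∑ x ∈ S, (G ⌈K * L q ^ 2⌉₊ q x : ℝ)) / L q ^ (1 + 2 * θ)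
              ≤ (a * N / q * (A * L q ^ θ) + N * (A * L q ^ 2) * e q) / L q ^ (1 + 2 * θ) :=
                div_le_div_of_nonneg_right hG hL43.le
            _ = a * A * N * (1 / q) * (L q ^ θ / L q ^ (1 + 2 * θ)) +
                A * N * e q * (L q ^ 2 * (L q ^ (1 + 2 * θ))⁻¹) := by
                ring
            _ ≤ a * A * N * (1 / q) * (L q ^ θ / L q ^ (1 + 2 * θ)) +
                A * N * e q * (Λ * ℓ) := by
                apply add_le_add le_rfl
                apply mul_le_mul_of_nonneg_left _ (by positivity)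
                apply mul_le_mul hL2 hinv (by positivity) (by positivity)
            _ = _ := by
                rw [e3]
                have e4 : (1 : ℝ) / q * (1 / Real.log ((q : ℝ) + 1) ^ (1 + θ)) =
                    1 / ((q : ℝ) * Real.log ((q : ℝ) + 1) ^ (1 + θ)) := by
                  rw [one_div_mul_one_div]
                rw [← e4]
                ring
      _ = a * A * N * ∑ q ∈ Icc 1 M, 1 / ((q : ℝ) * Real.log ((q : ℝ) + 1) ^ (1 + θ)) +
          N * (A * ℓ * Λ * R) := by
          rw [sum_add_distrib, ← mul_sum, ← mul_sum]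
          ring
      _ ≤ a * A * N * Z7 + N * 1 := by
          apply add_le_add
          · exact mul_le_mul_of_nonneg_left (hZ7 M) (by positivity)
          · apply mul_le_mul_of_nonneg_left _ hN0
            calc A * ℓ * Λ * R ≤ P * Λ * R := by
                  apply mul_le_mul_of_nonneg_right _ hR0
                  apply mul_le_mul_of_nonneg_right _ (by linarith)
                  rw [hP]
                  have : 0 < 4 / η := by positivity
                  linarith
              _ ≤ 1 := hPR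
      _ = (a * A * Z7 + 1) * N := by ring
  have hb2 : (bad2.card : ℝ) ≤ η / 2 * N := by
    have hWnn : ∀ m, 0 ≤ W m := by
      intro m
      apply sum_nonneg
      intro q _
      have : 0 ≤ L q := Real.log_nonneg (by
        have : (0 : ℝ) ≤ q := Nat.cast_nonneg q
        linarith)
      positivity
    have h1 : C1 * bad2.card ≤ ∑ x ∈ S, W x := by
      calc C1 * bad2.card = ∑ x ∈ bad2, C1 := by
            rw [sum_const, nsmul_eq_mul, mul_comm]
        _ ≤ ∑ x ∈ bad2, W x := by
            apply sum_le_sum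
            intro m hm
            rw [hbad2, mem_filter] at hm
            exact hm.2.le
        _ ≤ ∑ x ∈ S, W x :=
            sum_le_sum_of_subset_of_nonneg (filter_subset _ _) fun m _ _ => hWnn m
    have h2 := h1.trans hWsum
    rw [hC1] at h2
    have h3 : 0 < a * A * Z7 + 1 := by positivity
    have h4 : (a * A * Z7 + 1) * (2 / η * bad2.card) ≤ (a * A * Z7 + 1) * N := by
      calc (a * A * Z7 + 1) * (2 / η * bad2.card) = (a * A * Z7 + 1) * (2 / η) * bad2.card := by ring
        _ ≤ _ := h2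
    have h5 := le_of_mul_le_mul_left h4 h3
    rw [div_mul_eq_mul_div, div_le_iff₀ hη] at h5
    linarith
  calc _ ≤ ((bad1 ∪ bad2).card : ℝ) := by exact_mod_cast card_le_card hsub
    _ ≤ (bad1.card : ℝ) + bad2.card := by exact_mod_cast card_union_le _ _
    _ ≤ η / 2 * N + η / 2 * N := add_le_add hb1 hb2
    _ = η * N := by ring

end Pool.Agent.D0H53.AQ
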