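import Pool.Agent.D0H53.AP.Frd
import Pool.Agent.D0H53.AP.Tail

set_option autoImplicit false

/-!
# The number of the roots which are close to fractions with a given denominator
-/

open Finset Filter Topology

namespace Pool.Agent.D0H53.AQ

open Pool.Agent.D0H53.AP

/-- the number of the multiples of `e` in an interval -/
theorem card_mult (a b : ℤ) (hab : a ≤ b) (e : ℕ) (he : 1 ≤ e) :
    ((((Icc a b).filter fun x : ℤ => (e : ℤ) ∣ x).card : ℕ) : ℝ) ≤ ((b : ℝ) - a + 1) / e + 1 := by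
  have he0 : (0 : ℝ) < e := by exact_mod_cast he
  have h1 : Icc a b = Ioc (a - 1) b := by
    ext x
    rw [mem_Icc, mem_Ioc]
    omega
  have h2 := Int.Ioc_filter_dvd_card (a - 1) b (r := (e : ℤ)) (by exact_mod_cast he)
  rw [h1]
  have h3 : (((((Ioc (a - 1) b).filter fun x : ℤ => (e : ℤ) ∣ x).card : ℕ) : ℤ) : ℝ) =
      ((max (⌊(b : ℚ) / ((e : ℤ) : ℚ)⌋ - ⌊((a - 1 : ℤ) : ℚ) / ((e : ℤ) : ℚ)⌋) 0 : ℤ) : ℝ) := by
    exact_mod_cast h2
  have h4 : ((((Ioc (a - 1) b).filter fun x : ℤ => (e : ℤ) ∣ x).card : ℕ) : ℝ) =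
      (((((Ioc (a - 1) b).filter fun x : ℤ => (e : ℤ) ∣ x).card : ℕ) : ℤ) : ℝ) := by push_cast; rfl
  rw [h4, h3]
  push_cast
  have h5 : ((⌊(b : ℚ) / (e : ℚ)⌋ : ℤ) : ℝ) ≤ (b : ℝ) / e := by
    have := Int.floor_le ((b : ℚ) / (e : ℚ))
    exact_mod_cast this
  have h6 : ((a : ℝ) - 1) / e < ((⌊((a : ℚ) - 1) / (e : ℚ)⌋ : ℤ) : ℝ) + 1 := by
    have := Int.lt_floor_add_one (((a : ℚ) - 1) / (e : ℚ))
    exact_mod_cast this
  have h7 : ((b : ℝ) - a + 1) / e = (b : ℝ) / e - ((a : ℝ) - 1) / e := by ring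
  have h8 : 0 ≤ ((b : ℝ) - a + 1) / e := by
    apply div_nonneg _ he0.le
    have : (a : ℝ) ≤ b := by exact_mod_cast hab
    linarith
  apply max_le
  · rw [h7]
    linarith
  · linarith

/-- the sum of the greatest common divisors -/
theorem gcd_sum (k : ℤ) (q : ℕ) (hq : 1 ≤ q) :
    ∑ p ∈ Icc (k * q - 1) ((k + 1) * q + 1), (Int.gcd p (q : ℤ) : ℝ) ≤ 5 * q * q.divisors.card := by
  have hq1 : (1 : ℝ) ≤ q := by exact_mod_cast hq
  have h1 : ∀ p ∈ Icc (k * q - 1) ((k + 1) * q + 1), (Int.gcd p (q : ℤ) : ℝ) ≤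
      ∑ e ∈ q.divisors, if (e : ℤ) ∣ p then (e : ℝ) else 0 := by
    intro p _
    have h2 : Int.gcd p (q : ℤ) ∈ q.divisors := by
      rw [Nat.mem_divisors]
      refine ⟨?_, by omega⟩
      have := Int.gcd_dvd_right p (q : ℤ)
      exact_mod_cast this
    have h3 := Finset.single_le_sum (f := fun e : ℕ => if (e : ℤ) ∣ p then (e : ℝ) else 0)
      (fun e _ => by split_ifs <;> positivity) h2
    rw [if_pos (Int.gcd_dvd_left p (q : ℤ))] at h3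
    exact h3
  refine (Finset.sum_le_sum h1).trans ?_
  rw [Finset.sum_comm]
  have h2 : ∀ e ∈ q.divisors, ∑ p ∈ Icc (k * q - 1) ((k + 1) * q + 1), (if (e : ℤ) ∣ p then (e : ℝ) else 0) ≤
      5 * q := by
    intro e he
    have heq : e ≤ q := Nat.divisor_le he
    have he1 : 1 ≤ e := Nat.pos_of_mem_divisors he
    have he0 : (0 : ℝ) < e := by exact_mod_cast he1
    have heq' : (e : ℝ) ≤ q := by exact_mod_cast heq
    rw [← Finset.sum_filter, Finset.sum_const, nsmul_eq_mul]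
    have h3 := card_mult (k * q - 1) ((k + 1) * q + 1) (by nlinarith) e he1
    push_cast at h3
    have h4 := mul_le_mul_of_nonneg_right h3 he0.le
    have h5 : ((((k : ℝ) + 1) * q + 1 - (k * q - 1) + 1) / e + 1) * e = q + 3 + e := by
      field_simp
      ring
    rw [h5] at h4
    refine h4.trans ?_
    linarith
  refine (Finset.sum_le_card_nsmul _ _ _ h2).trans (le_of_eq ?_)
  rw [nsmul_eq_mul]
  ring

theorem Zc_union (n H : ℕ) (s : Finset ℤ) (T : Set ℝ) (U : ℤ → Set ℝ) (h : ∀ x ∈ T, ∃ i ∈ s, x ∈ U i) :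
    Zc n H T ≤ ∑ i ∈ s, Zc n H (U i) := by
  classical
  have hsub : PP n H T ⊆ ⋃ i ∈ s, PP n H (U i) := by
    rintro ⟨P, x⟩ ⟨h1, h2, h3, h4, h5⟩
    obtain ⟨i, hi, hx⟩ := h x h4
    simp only [Set.mem_iUnion]
    exact ⟨i, hi, h1, h2, h3, hx, h5⟩
  have hfin : (⋃ i ∈ s, PP n H (U i)).Finite :=
    Set.Finite.biUnion (Finset.finite_toSet _) fun k _ => PP_finite n H _
  rw [← PP_ncard]
  refine (Set.ncard_le_ncard hsub hfin).trans ?_
  refine (Finset.set_ncard_biUnion_le _ _).trans (le_of_eq ?_)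
  exact Finset.sum_congr rfl fun i _ => PP_ncard n H (U i)

theorem reduce_gcd (p : ℤ) (q : ℕ) (hq : 1 ≤ q) : ∃ (p' : ℤ) (q' : ℕ), 1 ≤ q' ∧ q' ≤ q ∧ IsCoprime p' (q' : ℤ) ∧
    (p : ℝ) / q = (p' : ℝ) / q' ∧ 1 / (q' : ℝ) = (Int.gcd p (q : ℤ) : ℝ) / q := by
  have hg : 0 < Int.gcd p (q : ℤ) := Int.gcd_pos_of_ne_zero_right _ (by exact_mod_cast (by omega : q ≠ 0))
  set g := Int.gcd p (q : ℤ) with hgd
  have hg0 : (0 : ℝ) < g := by exact_mod_cast hg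
  obtain ⟨p', hp'⟩ : (g : ℤ) ∣ p := Int.gcd_dvd_left p (q : ℤ)
  obtain ⟨q', hq'⟩ : g ∣ q := by
    have := Int.gcd_dvd_right p (q : ℤ)
    exact_mod_cast this
  have hq'1 : 1 ≤ q' := by
    rcases Nat.eq_zero_or_pos q' with h | h
    · rw [h, mul_zero] at hq'
      omega
    · exact h
  have hq'0 : (0 : ℝ) < q' := by exact_mod_cast hq'1
  refine ⟨p', q', hq'1, ?_, ?_, ?_, ?_⟩
  · rw [hq']
    exact Nat.le_mul_of_pos_left _ hg
  · rw [Int.isCoprime_iff_gcd_eq_one]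
    have h1 : Int.gcd p (q : ℤ) = g * Int.gcd p' (q' : ℤ) := by
      rw [hp', hq']
      push_cast
      rw [Int.gcd_mul_left, Int.natAbs_natCast]
    rw [← hgd] at h1
    have h2 : g * 1 = g * Int.gcd p' (q' : ℤ) := by rw [mul_one]; exact h1
    exact (Nat.eq_of_mul_eq_mul_left hg h2).symm
  · have h1 : (p : ℝ) = g * p' := by
      have : (p : ℝ) = ((g : ℤ) * p' : ℤ) := by exact_mod_cast hp'
      rw [this]; push_cast; ring
    have h2 : (q : ℝ) = g * q' := by exact_mod_cast hq'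
    rw [h1, h2]
    field_simp
  · have h2 : (q : ℝ) = g * q' := by exact_mod_cast hq'
    rw [h2]
    field_simp

/-- the number of the roots which are close to fractions with a given denominator -/
theorem near_q (n : ℕ) (k : ℤ) : ∃ D : ℝ, 0 < D ∧ ∀ H : ℕ, 1 ≤ H → ∀ q : ℕ, 1 ≤ q → q ≤ H → ∀ δ : ℝ, 0 ≤ δ →
    δ * q ≤ 1 → (Zc n H (Set.Ico (k : ℝ) (k + 1) ∩ {x | ∃ p : ℤ, |(q : ℝ) * x - p| ≤ δ}) : ℝ) ≤
      D * (δ * (H : ℝ) ^ (n + 2) + q.divisors.card * (H : ℝ) ^ (n + 1)) := by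
  set B : ℝ := |(k : ℝ)| + 4 with hB
  have hB1 : 1 ≤ B := by rw [hB]; linarith [abs_nonneg (k : ℝ)]
  obtain ⟨C1, hC1, hcount⟩ := frac_count n B hB1
  obtain ⟨C3, hC3, hle⟩ := RR_le n B hB1
  set D1 : ℝ := 2 * C3 + C1 with hD1
  have hD10 : 0 < D1 := by positivity
  refine ⟨5 * D1, by positivity, ?_⟩
  intro H hH q hq hqH δ hδ hδq
  have hH1 : (1 : ℝ) ≤ H := by exact_mod_cast hH
  have hH0 : (0 : ℝ) < H := by linarith
  have hq1 : (1 : ℝ) ≤ q := by exact_mod_cast hq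
  have hq0 : (0 : ℝ) < q := by linarith
  have hδ1 : δ ≤ 1 := by nlinarith
  set ρ : ℝ := δ / q with hρ
  have hρ0 : 0 ≤ ρ := by positivity
  have hρ1 : ρ ≤ 1 := by
    rw [hρ, div_le_one hq0]
    linarith
  have hρq : ρ * (q : ℝ) ^ 2 ≤ 1 := by
    have : ρ * (q : ℝ) ^ 2 = δ * q := by rw [hρ]; field_simp
    rw [this]
    exact hδq
  set J : Finset ℤ := Icc (k * q - 1) ((k + 1) * q + 1) with hJ
  have hP2 : (0 : ℝ) ≤ (H : ℝ) ^ (n + 2) := by positivity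
  have hP1 : (0 : ℝ) ≤ (H : ℝ) ^ (n + 1) := by positivity
  have hone : ∀ p ∈ J, (Zc n H (Set.Icc ((p : ℝ) / q - ρ) ((p : ℝ) / q + ρ)) : ℝ) ≤
      D1 * (ρ * (H : ℝ) ^ (n + 2)) + D1 * (H : ℝ) ^ (n + 1) / q * (Int.gcd p (q : ℤ) : ℝ) := by
    intro p hp
    rw [hJ, mem_Icc] at hp
    obtain ⟨p', q', hq'1, hq'q, hcop, heq, hinv⟩ := reduce_gcd p q hq
    have hpa : (k : ℝ) * q - 1 ≤ p := by exact_mod_cast hp.1
    have hpb : (p : ℝ) ≤ (k + 1) * q + 1 := by exact_mod_cast hp.2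
    have hya : (k : ℝ) - 1 ≤ (p : ℝ) / q := by
      rw [le_div_iff₀ hq0]
      nlinarith
    have hyb : (p : ℝ) / q ≤ k + 2 := by
      rw [div_le_iff₀ hq0]
      nlinarith
    have hk := abs_le.1 (le_refl |(k : ℝ)|)
    have hy : |(p : ℝ) / q| + ρ ≤ B := by
      have : |(p : ℝ) / q| ≤ |(k : ℝ)| + 2 := by
        rw [abs_le]
        constructor <;> linarith [hk.1, hk.2]
      rw [hB]
      linarith
    have hyB : |(p : ℝ) / q| ≤ B := by linarith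
    have hq'0 : (0 : ℝ) < q' := by exact_mod_cast hq'1
    have hq'R : (q' : ℝ) ≤ q := by exact_mod_cast hq'q
    have h1 : ρ * (q' : ℝ) ^ 2 ≤ 1 := by
      refine le_trans ?_ hρq
      apply mul_le_mul_of_nonneg_left _ hρ0
      exact pow_le_pow_left₀ hq'0.le hq'R 2
    have h2 := hcount H hH q' hq'1 (hq'q.trans hqH) p' hcop ρ hρ0 h1 (by rw [← heq]; exact hy)
    rw [← heq] at h2
    have h3 := (abs_le.1 h2).2
    have h4 := mul_le_mul_of_nonneg_left (hle H hH _ hyB) (by positivity : 0 ≤ 2 * ρ)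
    have h5 : ρ ^ 2 ≤ ρ := by nlinarith
    have h6 := mul_le_mul_of_nonneg_left h5 hP2
    have h7 : (H : ℝ) ^ (n + 1) / q' = (H : ℝ) ^ (n + 1) / q * (Int.gcd p (q : ℤ) : ℝ) := by
      rw [div_eq_mul_one_div, hinv]
      ring
    have h8 : C1 * ((H : ℝ) ^ (n + 2) * ρ ^ 2 + (H : ℝ) ^ (n + 1) / q') ≤
        C1 * (ρ * (H : ℝ) ^ (n + 2)) + C1 * ((H : ℝ) ^ (n + 1) / q * (Int.gcd p (q : ℤ) : ℝ)) := by
      rw [h7, mul_add]
      apply add_le_add _ le_rfl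
      apply mul_le_mul_of_nonneg_left _ hC1.le
      linarith
    have h9 : 0 ≤ (H : ℝ) ^ (n + 1) / q * (Int.gcd p (q : ℤ) : ℝ) := by positivity
    have h10 : D1 * (ρ * (H : ℝ) ^ (n + 2)) + D1 * (H : ℝ) ^ (n + 1) / q * (Int.gcd p (q : ℤ) : ℝ) =
        2 * ρ * (C3 * (H : ℝ) ^ (n + 2)) + C1 * (ρ * (H : ℝ) ^ (n + 2)) +
        C1 * ((H : ℝ) ^ (n + 1) / q * (Int.gcd p (q : ℤ) : ℝ)) +
        2 * C3 * ((H : ℝ) ^ (n + 1) / q * (Int.gcd p (q : ℤ) : ℝ)) := by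
      rw [hD1]; ring
    rw [h10]
    have h11 : 0 ≤ 2 * C3 * ((H : ℝ) ^ (n + 1) / q * (Int.gcd p (q : ℤ) : ℝ)) := by positivity
    linarith
  have hun : Zc n H (Set.Ico (k : ℝ) (k + 1) ∩ {x | ∃ p : ℤ, |(q : ℝ) * x - p| ≤ δ}) ≤
      ∑ p ∈ J, Zc n H (Set.Icc ((p : ℝ) / q - ρ) ((p : ℝ) / q + ρ)) := by
    apply Zc_union
    rintro x ⟨⟨hx1, hx2⟩, p, hp⟩
    have hp' := abs_le.1 hp
    refine ⟨p, ?_, ?_, ?_⟩
    · rw [hJ, mem_Icc]
      constructor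
      · have h1 : (k : ℝ) * q - 1 ≤ p := by nlinarith
        exact_mod_cast h1
      · have h1 : (p : ℝ) ≤ (k + 1) * q + 1 := by nlinarith
        exact_mod_cast h1
    · have h1 : (p : ℝ) / q - δ / q ≤ x := by
        rw [← sub_div, div_le_iff₀ hq0]
        linarith
      exact h1
    · have h1 : x ≤ (p : ℝ) / q + δ / q := by
        rw [← add_div, le_div_iff₀ hq0]
        linarith
      exact h1
  have hcardJ : (J.card : ℝ) ≤ 4 * q := by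
    rw [hJ, Int.card_Icc]
    have h1 : ((k + 1) * (q : ℤ) + 1 + 1 - (k * q - 1)).toNat = q + 3 := by
      have : (k + 1) * (q : ℤ) + 1 + 1 - (k * q - 1) = ((q + 3 : ℕ) : ℤ) := by push_cast; ring
      rw [this]
      exact Int.toNat_natCast _
    rw [h1]
    push_cast
    linarith
  have h1 : (Zc n H (Set.Ico (k : ℝ) (k + 1) ∩ {x | ∃ p : ℤ, |(q : ℝ) * x - p| ≤ δ}) : ℝ) ≤
      ∑ p ∈ J, (Zc n H (Set.Icc ((p : ℝ) / q - ρ) ((p : ℝ) / q + ρ)) : ℝ) := by exact_mod_cast hun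
  refine h1.trans ((Finset.sum_le_sum hone).trans ?_)
  rw [Finset.sum_add_distrib, Finset.sum_const, nsmul_eq_mul, ← Finset.mul_sum]
  have h2 := mul_le_mul_of_nonneg_right hcardJ (by positivity : 0 ≤ D1 * (ρ * (H : ℝ) ^ (n + 2)))
  have h3 := mul_le_mul_of_nonneg_left (gcd_sum k q hq) (by positivity : 0 ≤ D1 * (H : ℝ) ^ (n + 1) / q)
  have h4 : 4 * (q : ℝ) * (D1 * (ρ * (H : ℝ) ^ (n + 2))) = 4 * D1 * (δ * (H : ℝ) ^ (n + 2)) := by
    rw [hρ]; field_simp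
  have h5 : D1 * (H : ℝ) ^ (n + 1) / q * (5 * q * q.divisors.card) =
      5 * D1 * (q.divisors.card * (H : ℝ) ^ (n + 1)) := by
    field_simp
  rw [h4] at h2
  rw [h5] at h3
  have h6 : 0 ≤ D1 * (δ * (H : ℝ) ^ (n + 2)) := by positivity
  linarith

end Pool.Agent.D0H53.AQ
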