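import Pool.Agent.D0H53.AQ.Abs
import Pool.Agent.D0H53.AQ.Cnt

set_option autoImplicit false

/-!
# Partial quotients of almost all algebraic numbers of a given degree
-/

open Finset Filter Topology

namespace Pool.Agent.D0H53.AQ

open Pool.Agent.D0H53.AP
open Pool.Agent.H49.LM (G cf_data)

/-- the sum of the first `n` partial quotients is at most `C n ^ e` as long as the denominator before is at
most `N` -/
def Good (e C N x : ℝ) : Prop := ∀ n : ℕ, 1 ≤ n → (GenContFract.of x).dens (n - 1) ≤ N →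
  ∑ k ∈ range n, ((GenContFract.of x).partDens.get? k).getD 0 ≤ C * (n : ℝ) ^ e

theorem Good_mono {e C C' N N' x : ℝ} (h : C ≤ C') (hN : N' ≤ N) (hg : Good e C N x) :
    Good e C' N' x := by
  intro n hn hd
  refine (hg n hn (hd.trans hN)).trans ?_
  exact mul_le_mul_of_nonneg_right h (by positivity)

/-- algebraic numbers of degree at least two are irrational -/
theorem irr (d : ℕ) (hd : 2 ≤ d) (H : ℕ) (T : Set ℝ) (x : ℝ) (hx : x ∈ AlgR d H T) : Irrational x := by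
  obtain ⟨-, P, hP, hdeg, -, hroot⟩ := hx
  rintro ⟨r, rfl⟩
  have hprim : P.IsPrimitive := hP.isPrimitive (by omega)
  have h1 : Irreducible (P.map (Int.castRingHom ℚ)) :=
    (Polynomial.IsPrimitive.Int.irreducible_iff_irreducible_map_cast hprim).1 hP
  have h2 : (P.map (Int.castRingHom ℚ)).IsRoot r := by
    rw [Polynomial.IsRoot, Polynomial.eval_map]
    have h3 : Polynomial.aeval ((r : ℚ) : ℝ) P = (((P.eval₂ (Int.castRingHom ℚ) r : ℚ)) : ℝ) := by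
      rw [Polynomial.aeval_def]
      have h4 := Polynomial.hom_eval₂ P (Int.castRingHom ℚ) (algebraMap ℚ ℝ) r
      have h5 : (algebraMap ℚ ℝ).comp (Int.castRingHom ℚ) = algebraMap ℤ ℝ := Subsingleton.elim _ _
      rw [h5] at h4
      exact h4.symm
    rw [h3] at hroot
    exact_mod_cast hroot
  have h3 := Polynomial.degree_eq_one_of_irreducible_of_root h1 h2
  have h4 : (P.map (Int.castRingHom ℚ)).natDegree = 1 := Polynomial.natDegree_eq_of_degree_eq_some h3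
  rw [Polynomial.natDegree_map_eq_of_injective (RingHom.injective_int _), hdeg] at h4
  omega

theorem tau_sum (M : ℕ) : ∑ q ∈ Icc 1 M, (q.divisors.card : ℝ) ≤ M * (1 + Real.log M) := by
  have h1 : ∀ q ∈ Icc 1 M, (q.divisors.card : ℝ) = ∑ e ∈ Icc 1 M, if e ∣ q then (1 : ℝ) else 0 := by
    intro q hq
    rw [mem_Icc] at hq
    rw [Finset.sum_boole]
    congr 2
    ext e
    rw [Nat.mem_divisors, mem_filter, mem_Icc]
    constructor
    · rintro ⟨h1, h2⟩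
      exact ⟨⟨Nat.pos_of_dvd_of_pos h1 (by omega), (Nat.le_of_dvd (by omega) h1).trans hq.2⟩, h1⟩
    · rintro ⟨h1, h2⟩
      exact ⟨h2, by omega⟩
  rw [Finset.sum_congr rfl h1, Finset.sum_comm]
  have h2 : ∀ e ∈ Icc 1 M, ∑ q ∈ Icc 1 M, (if e ∣ q then (1 : ℝ) else 0) ≤ M * ((e : ℝ))⁻¹ := by
    intro e he
    rw [mem_Icc] at he
    have he0 : (0 : ℝ) < e := by exact_mod_cast he.1
    rw [Finset.sum_boole]
    have h3 : (Icc 1 M).filter (fun q => e ∣ q) = (Ioc 0 M).filter (fun q => e ∣ q) := rfl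
    rw [h3, Nat.Ioc_filter_dvd_card_eq_div, ← div_eq_mul_inv]
    exact Nat.cast_div_le
  refine (Finset.sum_le_sum h2).trans ?_
  rw [← Finset.mul_sum]
  apply mul_le_mul_of_nonneg_left _ (Nat.cast_nonneg _)
  have h3 := harmonic_le_one_add_log M
  rw [harmonic_eq_sum_Icc] at h3
  push_cast at h3
  exact h3

/-- the size of the error -/
theorem err_e (κ A : ℝ) (hκ : κ < 1) (hA : 0 ≤ A) : ∃ H₀ : ℕ, 1 ≤ H₀ ∧ ∀ H : ℕ, H₀ ≤ H →
    A * (1 + Real.log H) ^ 3 * ((H : ℝ) ^ κ / H) ≤ 1 := by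
  set θ : ℝ := (1 - κ) / 6 with hθ
  have hθ0 : 0 < θ := by rw [hθ]; linarith
  set B : ℝ := A * (1 + 1 / θ) ^ 3 with hB
  have hB0 : 0 ≤ B := by positivity
  have h1 : Tendsto (fun N : ℕ => B * (N : ℝ) ^ (-((1 - κ) / 2))) atTop (𝓝 0) := by
    have h2 := ((tendsto_rpow_neg_atTop (by linarith : 0 < (1 - κ) / 2)).comp
      tendsto_natCast_atTop_atTop).const_mul B
    simpa using h2
  obtain ⟨N₀, hN₀⟩ := Filter.eventually_atTop.1 (h1.eventually (gt_mem_nhds one_pos))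
  refine ⟨max N₀ 1, le_max_right _ _, fun H hH => ?_⟩
  have hH1 : 1 ≤ H := (le_max_right _ _).trans hH
  have hHR : (1 : ℝ) ≤ H := by exact_mod_cast hH1
  have hH0 : (0 : ℝ) < H := by linarith
  have hlog : 0 ≤ Real.log H := Real.log_natCast_nonneg H
  have h2 := Pool.Agent.D0H53.PL.log_le H hH1 θ hθ0
  have h3 : (1 + Real.log H) ^ 3 ≤ (1 + 1 / θ) ^ 3 * (H : ℝ) ^ ((1 - κ) / 2) := by
    calc (1 + Real.log H) ^ 3 ≤ ((1 + 1 / θ) * (H : ℝ) ^ θ) ^ 3 := pow_le_pow_left₀ (by linarith) h2 3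
      _ = (1 + 1 / θ) ^ 3 * ((H : ℝ) ^ θ) ^ 3 := mul_pow _ _ _
      _ = _ := by
          rw [← Real.rpow_natCast ((H : ℝ) ^ θ) 3, ← Real.rpow_mul hH0.le]
          congr 2
          rw [hθ]
          push_cast
          ring
  have h4 : (H : ℝ) ^ κ / H = (H : ℝ) ^ (κ - 1) := by
    rw [Real.rpow_sub hH0, Real.rpow_one]
  calc A * (1 + Real.log H) ^ 3 * ((H : ℝ) ^ κ / H)
      ≤ A * ((1 + 1 / θ) ^ 3 * (H : ℝ) ^ ((1 - κ) / 2)) * ((H : ℝ) ^ κ / H) := by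
        apply mul_le_mul_of_nonneg_right _ (by positivity)
        exact mul_le_mul_of_nonneg_left h3 hA
    _ = B * ((H : ℝ) ^ ((1 - κ) / 2) * (H : ℝ) ^ (κ - 1)) := by rw [h4, hB]; ring
    _ = B * (H : ℝ) ^ (-((1 - κ) / 2)) := by
        rw [← Real.rpow_add hH0]
        congr 2
        ring
    _ ≤ 1 := (hN₀ H ((le_max_left _ _).trans hH)).le

/-- the statement for the unit intervals -/
theorem unit_int (n : ℕ) (hn : 1 ≤ n) (k : ℤ) (κ e η : ℝ) (he : 1 < e) (hκ0 : 0 < κ) (hκ : κ < 1)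
    (hη : 0 < η) :
    ∃ C : ℝ, ∃ H₀ : ℕ, ∀ H : ℕ, H₀ ≤ H →
    ((AlgR (n + 1) H (Set.Ico (k : ℝ) (k + 1) ∩ {x | ¬ Good e C ((H : ℝ) ^ κ) x})).ncard : ℝ) ≤
      η * ((AlgR (n + 1) H (Set.Ico (k : ℝ) (k + 1))).ncard : ℝ) := by
  classical
  obtain ⟨D, hD, hnear⟩ := near_q n k
  obtain ⟨c, hc, H₁, hH₁, hge⟩ := Alg_ge (n + 1) (by omega) k
  set a : ℝ := D / c with ha
  have ha0 : 0 < a := by positivity
  set θ : ℝ := min 1 ((e - 1) / 5) with hθdef
  have hθ0 : 0 < θ := lt_min one_pos (by linarith)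
  have hθ1 : θ ≤ 1 := min_le_left _ _
  have hθe : (1 + θ) * (1 + 2 * θ) ≤ e := by
    have : θ ≤ (e - 1) / 5 := min_le_right _ _
    nlinarith
  obtain ⟨K, C1, P, hK, hC1, hP, habs⟩ := abs_core θ a η hθ0 ha0 hη
  obtain ⟨C0, hC0⟩ := sum_of_bounds_t θ K C1 hθ0 hK hC1
  set C : ℝ := max C0 0 with hCdef
  obtain ⟨H₂, hH₂, herr⟩ := err_e κ (P * a) hκ (by positivity)
  refine ⟨C, max H₁ H₂, fun H hH => ?_⟩
  have hHa : H₁ ≤ H := (le_max_left _ _).trans hH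
  have hHb : H₂ ≤ H := (le_max_right _ _).trans hH
  have hH1 : 1 ≤ H := hH₁.trans hHa
  have hHR : (1 : ℝ) ≤ H := by exact_mod_cast hH1
  have hH0 : (0 : ℝ) < H := by linarith
  have hlogH : 0 ≤ Real.log H := Real.log_natCast_nonneg H
  set I : Set ℝ := Set.Ico (k : ℝ) (k + 1) with hI
  set S : Finset ℝ := (AlgR_finite (n + 1) H (by omega) I).toFinset with hS
  have hcard : (S.card : ℝ) = ((AlgR (n + 1) H I).ncard : ℝ) := by
    rw [hS, ← Set.ncard_eq_toFinset_card _ (AlgR_finite (n + 1) H (by omega) I)]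
  have hge' : c * (H : ℝ) ^ (n + 2) ≤ S.card := by
    rw [hcard]
    exact hge H hHa
  set M : ℕ := ⌊(H : ℝ) ^ κ⌋₊ with hM
  have hMκ : (M : ℝ) ≤ (H : ℝ) ^ κ := Nat.floor_le (by positivity)
  have hκH : (H : ℝ) ^ κ ≤ H := by
    calc (H : ℝ) ^ κ ≤ (H : ℝ) ^ (1 : ℝ) := Real.rpow_le_rpow_of_exponent_le hHR hκ.le
      _ = H := Real.rpow_one _
  have hMH : M ≤ H := by exact_mod_cast hMκ.trans hκH
  have hMR : (M : ℝ) ≤ H := by exact_mod_cast hMH
  have hfilter : ∀ X : ℝ → Prop, ((S.filter X).card : ℝ) = ((AlgR (n + 1) H (I ∩ {x | X x})).ncard : ℝ) := by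
    intro X
    have : AlgR (n + 1) H (I ∩ {x | X x}) = ((S.filter X : Finset ℝ) : Set ℝ) := by
      ext x
      rw [Finset.mem_coe, mem_filter, hS, Set.Finite.mem_toFinset]
      constructor
      · rintro ⟨⟨h1, h2⟩, h3⟩
        exact ⟨⟨h1, h3⟩, h2⟩
      · rintro ⟨⟨h1, h3⟩, h2⟩
        exact ⟨⟨h1, h2⟩, h3⟩
    rw [this, Set.ncard_coe_finset]
  have key := habs S M (fun q => a * q.divisors.card / H) ((1 + Real.log H) ^ 2) (by
      have : 1 ≤ 1 + Real.log H := by linarith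
      exact one_le_pow₀ this) (fun q _ => by positivity) (by
      intro q hq
      rw [mem_Icc] at hq
      have hq0 : (0 : ℝ) ≤ q := Nat.cast_nonneg _
      have hqH : (q : ℝ) ≤ H := (by exact_mod_cast hq.2 : (q : ℝ) ≤ M).trans hMR
      apply pow_le_pow_left₀ (Real.log_nonneg (by linarith))
      have h1 : Real.log ((q : ℝ) + 1) ≤ Real.log (2 * H) := Real.log_le_log (by linarith) (by linarith)
      rw [Real.log_mul (by norm_num) hH0.ne'] at h1
      have h2 : Real.log 2 ≤ 1 := by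
        have := Real.log_le_sub_one_of_pos (show (0 : ℝ) < 2 by norm_num)
        linarith
      linarith) (by
      have h1 : ∑ q ∈ Icc 1 M, a * (q.divisors.card : ℝ) / H ≤ a / H * ((H : ℝ) ^ κ * (1 + Real.log H)) := by
        have h2 : ∀ q ∈ Icc 1 M, a * (q.divisors.card : ℝ) / H = a / H * (q.divisors.card : ℝ) := by
          intro q _
          ring
        rw [Finset.sum_congr rfl h2, ← Finset.mul_sum]
        apply mul_le_mul_of_nonneg_left _ (by positivity)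
        refine (tau_sum M).trans ?_
        have h3 : Real.log M ≤ Real.log H := by
          rcases Nat.eq_zero_or_pos M with h | h
          · rw [h, Nat.cast_zero, Real.log_zero]
            exact hlogH
          · exact Real.log_le_log (by exact_mod_cast h) hMR
        have h4 : 0 ≤ Real.log M := Real.log_natCast_nonneg M
        exact mul_le_mul hMκ (by linarith) (by linarith) (by positivity)
      have h2 := mul_le_mul_of_nonneg_left h1 (by positivity : 0 ≤ P * (1 + Real.log H) ^ 2)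
      refine h2.trans (le_trans (le_of_eq ?_) (herr H hHb))
      ring) (by
      intro q hq δ hδ hδq
      rw [mem_Icc] at hq
      have hqH : q ≤ H := hq.2.trans hMH
      rw [hfilter]
      have h1 : ((AlgR (n + 1) H (I ∩ {x | ∃ p : ℤ, |(q : ℝ) * x - p| ≤ δ})).ncard : ℝ) ≤
          (Zc n H (I ∩ {x | ∃ p : ℤ, |(q : ℝ) * x - p| ≤ δ}) : ℝ) := by
        exact_mod_cast Alg_Zc n H _
      refine h1.trans ((hnear H hH1 q hq.1 hqH δ hδ hδq).trans ?_)
      have h2 : (H : ℝ) ^ (n + 2) ≤ S.card / c := by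
        rw [le_div_iff₀ hc]
        linarith
      have h3 : (H : ℝ) ^ (n + 1) ≤ S.card / c / H := by
        rw [le_div_iff₀ hH0]
        have hpow : (H : ℝ) ^ (n + 2) = (H : ℝ) ^ (n + 1) * H := by
          rw [show n + 2 = (n + 1) + 1 by omega, pow_succ]
        rw [← hpow]
        exact h2
      calc D * (δ * (H : ℝ) ^ (n + 2) + q.divisors.card * (H : ℝ) ^ (n + 1))
          ≤ D * (δ * (S.card / c) + q.divisors.card * (S.card / c / H)) := by
            apply mul_le_mul_of_nonneg_left _ hD.le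
            exact add_le_add (mul_le_mul_of_nonneg_left h2 hδ)
              (mul_le_mul_of_nonneg_left h3 (Nat.cast_nonneg _))
        _ = a * S.card * δ + S.card * (a * q.divisors.card / H) := by
            rw [ha]
            ring)
  rw [← hcard]
  refine le_trans ?_ key
  rw [← hfilter]
  have hsub : S.filter (fun x => ¬ Good e C ((H : ℝ) ^ κ) x) ⊆ S.filter (fun x : ℝ => ¬ ((∀ q ∈ Icc 1 M, ∀ p : ℤ,
        1 / (K * q * Real.log ((q : ℝ) + 1) ^ 2) < |(q : ℝ) * x - p|) ∧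
        ∑ q ∈ Icc 1 M, (G ⌈K * Real.log ((q : ℝ) + 1) ^ 2⌉₊ q x : ℝ) /
          Real.log ((q : ℝ) + 1) ^ (1 + 2 * θ) ≤ C1)) := by
    intro x hx
    rw [mem_filter] at hx ⊢
    refine ⟨hx.1, ?_⟩
    rintro ⟨h1, h2⟩
    apply hx.2
    have hxA : x ∈ AlgR (n + 1) H I := by
      have := hx.1
      rw [hS, Set.Finite.mem_toFinset] at this
      exact this
    have hirr : Irrational x := irr (n + 1) (by omega) H I x hxA
    intro m hm hden
    have hm1 : (1 : ℝ) ≤ m := by exact_mod_cast hm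
    have hden' : (GenContFract.of x).dens (m - 1) ≤ (M : ℝ) := by
      obtain ⟨b, A, B, -, -, hBeq, -⟩ := cf_data x hirr
      rw [hBeq] at hden ⊢
      exact_mod_cast Nat.le_floor hden
    calc ∑ k ∈ range m, ((GenContFract.of x).partDens.get? k).getD 0
        ≤ C0 * (m : ℝ) ^ ((1 + θ) * (1 + 2 * θ)) := hC0 x M hirr h1 h2 m hm hden'
      _ ≤ C * (m : ℝ) ^ ((1 + θ) * (1 + 2 * θ)) :=
          mul_le_mul_of_nonneg_right (le_max_left _ _) (by positivity)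
      _ ≤ C * (m : ℝ) ^ e :=
          mul_le_mul_of_nonneg_left (Real.rpow_le_rpow_of_exponent_le hm1 hθe) (le_max_right _ _)
  have h9 := Finset.card_le_card hsub
  refine le_trans (le_of_eq ?_) (le_trans (Nat.cast_le.2 h9) (le_of_eq ?_))
  · congr!
  · congr!

/-- the property of the intervals -/
def PZ (d : ℕ) (κ e : ℝ) (T : Set ℝ) : Prop := ∀ η : ℝ, 0 < η → ∃ C : ℝ, ∃ H₀ : ℕ, ∀ H : ℕ, H₀ ≤ H →
    ((AlgR d H (T ∩ {x | ¬ Good e C ((H : ℝ) ^ κ) x})).ncard : ℝ) ≤ η * ((AlgR d H T).ncard : ℝ)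

theorem PZ_union (d : ℕ) (hd : 1 ≤ d) (κ e : ℝ) (I J : Set ℝ) (hIJ : Disjoint I J) (hI : PZ d κ e I)
    (hJ : PZ d κ e J) : PZ d κ e (I ∪ J) := by
  intro η hη
  obtain ⟨C₁, H₁, h1⟩ := hI η hη
  obtain ⟨C₂, H₂, h2⟩ := hJ η hη
  refine ⟨max C₁ C₂, max H₁ H₂, fun H hH => ?_⟩
  have e1 := h1 H ((le_max_left _ _).trans hH)
  have e2 := h2 H ((le_max_right _ _).trans hH)
  rw [Alg_add d hd H I J hIJ, Set.union_inter_distrib_right,
    Alg_add d hd H _ _ (hIJ.mono Set.inter_subset_left Set.inter_subset_left)]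
  have e3 := Alg_mono d hd H (I ∩ {x | ¬ Good e (max C₁ C₂) ((H : ℝ) ^ κ) x}) (I ∩ {x | ¬ Good e C₁ ((H : ℝ) ^ κ) x})
    (fun x hx => ⟨hx.1, fun h => hx.2 (Good_mono (le_max_left _ _) le_rfl h)⟩)
  have e4 := Alg_mono d hd H (J ∩ {x | ¬ Good e (max C₁ C₂) ((H : ℝ) ^ κ) x}) (J ∩ {x | ¬ Good e C₂ ((H : ℝ) ^ κ) x})
    (fun x hx => ⟨hx.1, fun h => hx.2 (Good_mono (le_max_right _ _) le_rfl h)⟩)
  rw [mul_add]
  linarith

theorem PZ_Ico (d : ℕ) (hd : 2 ≤ d) (κ e : ℝ) (he : 1 < e) (hκ0 : 0 < κ) (hκ : κ < 1) (a : ℤ) (m : ℕ) :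
    PZ d κ e (Set.Ico (a : ℝ) (a + (m + 1 : ℕ))) := by
  obtain ⟨n, rfl⟩ : ∃ n, d = n + 1 := ⟨d - 1, by omega⟩
  induction m with
  | zero =>
    intro η hη
    have h := unit_int n (by omega) a κ e η he hκ0 hκ hη
    rw [zero_add, Nat.cast_one]
    exact h
  | succ m ih =>
    have h1 : Set.Ico (a : ℝ) (a + ((m + 1 + 1 : ℕ) : ℝ)) =
        Set.Ico (a : ℝ) (a + ((m + 1 : ℕ) : ℝ)) ∪ Set.Ico (((a + (m + 1 : ℕ) : ℤ)) : ℝ) (((a + (m + 1 : ℕ) : ℤ) : ℝ) + 1) := by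
      push_cast
      have e' : (a : ℝ) + (m + 1 + 1) = a + (m + 1) + 1 := by ring
      rw [e', Set.Ico_union_Ico_eq_Ico (by linarith [(Nat.cast_nonneg m : (0 : ℝ) ≤ m)]) (by linarith)]
    rw [h1]
    refine PZ_union (n + 1) (by omega) κ e _ _ ?_ ih ?_
    · rw [Set.disjoint_left]
      intro x hx hx'
      have h2 := hx.2
      have h3 := hx'.1
      push_cast at h2 h3
      linarith
    · intro η hη
      exact unit_int n (by omega) (a + (m + 1 : ℕ)) κ e η he hκ0 hκ hη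

theorem PZ_univ (d : ℕ) (hd : 2 ≤ d) (κ e : ℝ) (he : 1 < e) (hκ0 : 0 < κ) (hκ : κ < 1) :
    PZ d κ e Set.univ := by
  intro η hη
  obtain ⟨n, rfl⟩ : ∃ n, d = n + 1 := ⟨d - 1, by omega⟩
  obtain ⟨Ct, hCt, htail⟩ := tail_bound n
  obtain ⟨c, hc, H₁, hH₁, hge⟩ := Alg_ge (n + 1) (by omega) 0
  have hR1 : 1 ≤ ⌈4 * Ct / (η * c)⌉₊ := Nat.one_le_ceil_iff.2 (by positivity)
  have hR : 4 * Ct / (η * c) ≤ (⌈4 * Ct / (η * c)⌉₊ : ℝ) := Nat.le_ceil _
  set R : ℕ := ⌈4 * Ct / (η * c)⌉₊ with hRd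
  have hR0 : (0 : ℝ) < R := by exact_mod_cast hR1
  have hI := PZ_Ico (n + 1) hd κ e he hκ0 hκ (-(R : ℤ)) (2 * R - 1)
  have eI : Set.Ico (((-(R : ℤ) : ℤ)) : ℝ) (((-(R : ℤ) : ℤ) : ℝ) + ((2 * R - 1 + 1 : ℕ) : ℝ)) = Set.Ico (-(R : ℝ)) R := by
    have : ((2 * R - 1 + 1 : ℕ) : ℝ) = 2 * R := by
      have h : 2 * R - 1 + 1 = 2 * R := by omega
      rw [h]
      push_cast
      ring
    rw [this]
    push_cast
    congr 1
    ring
  rw [eI] at hI
  obtain ⟨C, H₂, h2⟩ := hI (η / 2) (by positivity)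
  refine ⟨C, max (max H₁ R) H₂, fun H hH => ?_⟩
  have hHa : H₁ ≤ H := (le_max_left _ _).trans ((le_max_left _ _).trans hH)
  have hHR : R ≤ H := (le_max_right _ _).trans ((le_max_left _ _).trans hH)
  have hHb : H₂ ≤ H := (le_max_right _ _).trans hH
  have hH1 : 1 ≤ H := hH₁.trans hHa
  have hH0 : (0 : ℝ) < H := by exact_mod_cast hH1
  have hHR' : (R : ℝ) ≤ H := by exact_mod_cast hHR
  have e1 := h2 H hHb
  set X : Set ℝ := {x | ¬ Good e C ((H : ℝ) ^ κ) x} with hX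
  have hge' : c * (H : ℝ) ^ (n + 2) ≤ ((AlgR (n + 1) H Set.univ).ncard : ℝ) :=
    (hge H hHa).trans (Alg_mono (n + 1) (by omega) H _ _ (Set.subset_univ _))
  have e2 : ((AlgR (n + 1) H (Set.Ico (-(R : ℝ)) R)).ncard : ℝ) ≤ ((AlgR (n + 1) H Set.univ).ncard : ℝ) :=
    Alg_mono (n + 1) (by omega) H _ _ (Set.subset_univ _)
  have e3 : ((AlgR (n + 1) H (Set.univ ∩ X)).ncard : ℝ) ≤ ((AlgR (n + 1) H {x | (R : ℝ) ≤ |x|}).ncard : ℝ) +
      ((AlgR (n + 1) H (Set.Ico (-(R : ℝ)) R ∩ X)).ncard : ℝ) := by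
    have hsub : AlgR (n + 1) H (Set.univ ∩ X) ⊆ AlgR (n + 1) H {x | (R : ℝ) ≤ |x|} ∪
        AlgR (n + 1) H (Set.Ico (-(R : ℝ)) R ∩ X) := by
      rintro x ⟨⟨-, h1⟩, h3⟩
      rcases le_or_gt (R : ℝ) |x| with h | h
      · exact Or.inl ⟨h, h3⟩
      · right
        have h4 := abs_lt.1 h
        exact ⟨⟨⟨h4.1.le, h4.2⟩, h1⟩, h3⟩
    have h3 := (Set.ncard_le_ncard hsub ((AlgR_finite (n + 1) H (by omega) _).union
      (AlgR_finite (n + 1) H (by omega) _))).trans (Set.ncard_union_le _ _)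
    exact_mod_cast h3
  have e4 : ((AlgR (n + 1) H {x | (R : ℝ) ≤ |x|}).ncard : ℝ) ≤ η / 2 * ((AlgR (n + 1) H Set.univ).ncard : ℝ) := by
    have h3 : ((AlgR (n + 1) H {x | (R : ℝ) ≤ |x|}).ncard : ℝ) ≤ (Zc n H {x | (R : ℝ) ≤ |x|} : ℝ) := by
      exact_mod_cast Alg_Zc n H _
    refine h3.trans ((htail H hH1 R hR1).trans ?_)
    have hpow : (H : ℝ) ^ (n + 2) = (H : ℝ) ^ (n + 1) * H := by
      rw [show n + 2 = (n + 1) + 1 by omega, pow_succ]
    have h5 : (H : ℝ) ^ (n + 1) ≤ (H : ℝ) ^ (n + 2) / R := by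
      rw [le_div_iff₀ hR0, hpow]
      exact mul_le_mul_of_nonneg_left hHR' (by positivity)
    have h6 : Ct * ((H : ℝ) ^ (n + 2) / R + (H : ℝ) ^ (n + 1)) ≤ Ct * (2 * ((H : ℝ) ^ (n + 2) / R)) := by
      apply mul_le_mul_of_nonneg_left _ hCt.le
      linarith
    refine h6.trans (le_trans ?_ (mul_le_mul_of_nonneg_left hge' (by positivity : 0 ≤ η / 2)))
    have h7 : Ct * (2 * ((H : ℝ) ^ (n + 2) / R)) = (2 * Ct) * (H : ℝ) ^ (n + 2) / R := by ring
    rw [h7, div_le_iff₀ hR0]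
    rw [div_le_iff₀ (by positivity)] at hR
    have h8 : 2 * Ct ≤ η / 2 * c * R := by linarith
    have := mul_le_mul_of_nonneg_right h8 (by positivity : (0 : ℝ) ≤ (H : ℝ) ^ (n + 2))
    linarith
  have e5 := mul_le_mul_of_nonneg_left e2 (by positivity : 0 ≤ η / 2)
  linarith

end Pool.Agent.D0H53.AQ
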