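import Pool.Agent.D0H53.AQ.Mx
import Pool.Agent.D0H53.AQ.Fin

set_option autoImplicit false

/-!
# The number of large partial quotients
-/

open Finset Filter Topology

namespace Pool.Agent.D0H53.AQ

open Pool.Agent.D0H53.AP
open Pool.Agent.D0H53.PL

/-- the number of the `n` with `q_n ≤ N` and `a_(n+1) > z` -/
noncomputable def lg (N z α : ℝ) : ℕ :=
  {n : ℕ | (GenContFract.of α).dens n ≤ N ∧ z < ((GenContFract.of α).partDens.get? n).getD 0}.ncard

theorem lg_finite (α : ℝ) (hirr : Irrational α) (N z : ℝ) :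
    {n : ℕ | (GenContFract.of α).dens n ≤ N ∧ z < ((GenContFract.of α).partDens.get? n).getD 0}.Finite := by
  apply (Set.finite_Iic ⌊N⌋₊).subset
  rintro n ⟨h1, -⟩
  exact Nat.le_floor (((dens_facts α hirr).1 n).trans h1)

theorem Pr_finite (Q2 : ℕ) (δ α : ℝ) (hδ1 : δ ≤ 1) : (Pr 1 Q2 (fun _ => δ) α).Finite := by
  apply ((Set.finite_Icc (-⌈(|α| + 1) * Q2⌉) ⌈(|α| + 1) * Q2⌉).prod (Set.finite_Iic Q2)).subset
  rintro ⟨p, q⟩ ⟨h1, h2, -, h4⟩
  simp only at h1 h2 h4
  have hq0 : (0 : ℝ) < q := by exact_mod_cast (by omega : 0 < q)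
  have hq1 : (1 : ℝ) ≤ q := by exact_mod_cast (by omega : 1 ≤ q)
  have hqQ : (q : ℝ) ≤ Q2 := by exact_mod_cast h2
  have h5 : |(p : ℝ) / q| ≤ |α| + 1 := by
    have e1 : (p : ℝ) / q = α - (α - (p : ℝ) / q) := by ring
    rw [e1]
    refine (abs_sub _ _).trans (add_le_add le_rfl (h4.trans ?_))
    rw [div_le_one (by positivity)]
    nlinarith
  have h6 : |(p : ℝ)| ≤ (|α| + 1) * Q2 := by
    rw [abs_div, abs_of_pos hq0, div_le_iff₀ hq0] at h5
    refine h5.trans (mul_le_mul_of_nonneg_left hqQ (by positivity))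
  have h7 := abs_le.1 (h6.trans (Int.le_ceil _))
  refine ⟨⟨?_, ?_⟩, h2⟩
  · have := h7.1
    exact_mod_cast this
  · have := h7.2
    exact_mod_cast this

theorem Pr_mono (Q2 : ℕ) (δ δ' α : ℝ) (hδ : δ ≤ δ') : Pr 1 Q2 (fun _ => δ) α ⊆ Pr 1 Q2 (fun _ => δ') α := by
  rintro ⟨p, q⟩ ⟨h1, h2, h3, h4⟩
  exact ⟨h1, h2, h3, h4.trans (div_le_div_of_nonneg_right hδ (by positivity))⟩

/-- the hits with `δ = 1 / (z + 4)` give large partial quotients -/
theorem hits_le_lg (α : ℝ) (hirr : Irrational α) (N z : ℝ) (hN : 0 ≤ N) (hz : 0 < z) :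
    (Pr 1 ⌊N⌋₊ (fun _ => 1 / (z + 4)) α).ncard ≤ lg N z α := by
  classical
  have key : ∀ x : ℤ × ℕ, x ∈ Pr 1 ⌊N⌋₊ (fun _ => 1 / (z + 4)) α → ∃ n, (GenContFract.of α).dens n = (x.2 : ℝ) ∧
      (GenContFract.of α).convs n = (x.1 : ℝ) / x.2 ∧
      z + 4 - 3 ≤ ((GenContFract.of α).partDens.get? n).getD 0 := by
    rintro ⟨p, q⟩ ⟨h1, h2, h3, h4⟩
    exact large_of_hit α hirr p q (by simp only at h1; omega) h3 (z + 4) (by linarith) h4
  choose! f hf using key
  refine Set.ncard_le_ncard_of_injOn f ?_ ?_ (lg_finite α hirr N z)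
  · rintro ⟨p, q⟩ hx
    obtain ⟨e1, e2, e3⟩ := hf _ hx
    refine ⟨?_, by linarith⟩
    rw [e1]
    exact (Nat.le_floor_iff hN).1 hx.2.1
  · rintro ⟨p, q⟩ hx ⟨p', q'⟩ hx' h
    obtain ⟨e1, e2, -⟩ := hf _ hx
    obtain ⟨e1', e2', -⟩ := hf _ hx'
    rw [h] at e1 e2
    have hq : (q : ℝ) = q' := by
      have := e1.symm.trans e1'
      simpa using this
    have hqn : q = q' := by exact_mod_cast hq
    subst hqn
    have hq0 : (0 : ℝ) < q := by
      have : 1 < q := hx.1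
      exact_mod_cast (by omega : 0 < q)
    have hp := e2.symm.trans e2'
    simp only at hp
    rw [div_left_inj' hq0.ne'] at hp
    have hpn : p = p' := by exact_mod_cast hp
    rw [hpn]

/-- large partial quotients give hits with `δ = 1 / z` -/
theorem lg_le_hits (α : ℝ) (hirr : Irrational α) (e C N N' z : ℝ) (hN : 1 ≤ N') (hz : 1 ≤ z) (hC : C * 2 ^ e ≤ z)
    (hC0 : 0 ≤ C) (he : 0 ≤ e) (hg : Good e C N' α) :
    lg N z α ≤ (Pr 1 ⌊N⌋₊ (fun _ => 1 / z) α).ncard := by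
  classical
  have hz0 : 0 < z := by linarith
  have key : ∀ n : ℕ, n ∈ {n : ℕ | (GenContFract.of α).dens n ≤ N ∧
      z < ((GenContFract.of α).partDens.get? n).getD 0} → ∃ x : ℤ × ℕ, x ∈ Pr 1 ⌊N⌋₊ (fun _ => 1 / z) α ∧
      (GenContFract.of α).dens n = (x.2 : ℝ) := by
    rintro n ⟨h1, h2⟩
    obtain ⟨p, q, hq1, hq, hpq, h⟩ := hit_of_large α hirr n z hz0 h2
    refine ⟨(p, q), ⟨?_, ?_, hpq, h⟩, hq⟩
    · by_contra hcon
      simp only at hcon
      have hq' : q = 1 := by omega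
      rw [hq', Nat.cast_one] at hq
      obtain ⟨h3, h4⟩ := den_one α hirr n hq.le
      have h5 := hg (n + 1) (by omega) (by rw [Nat.add_sub_cancel, hq]; exact hN)
      have h6 : ((n + 1 : ℕ) : ℝ) ^ e ≤ 2 ^ e := by
        apply Real.rpow_le_rpow (by positivity) _ he
        exact_mod_cast (by omega : n + 1 ≤ 2)
      have h7 := mul_le_mul_of_nonneg_left h6 hC0
      linarith
    · have : (q : ℝ) ≤ N := by rw [← hq]; exact h1
      exact Nat.le_floor this
  choose! f hf using key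
  have hδ1 : 1 / z ≤ 1 := by
    rw [div_le_one hz0]
    exact hz
  refine Set.ncard_le_ncard_of_injOn f ?_ ?_ (Pr_finite ⌊N⌋₊ (1 / z) α hδ1)
  · intro n hn
    exact (hf n hn).1
  · intro m hm n hn h
    obtain ⟨e1, e2⟩ := hf m hm
    obtain ⟨e1', e2'⟩ := hf n hn
    apply (dens_facts α hirr).2 m n
    · rw [e2]
      have : 1 < (f m).2 := e1.1
      exact_mod_cast this
    · rw [e2, e2', h]

/-- the passage between two counts with the same law -/
theorem tv_transfer (F E : Set ℝ) (hF : F.Finite) (X M Y : ℝ → ℕ) (P : Set ℕ → ℝ) (K : ℕ) (ε η τ : ℝ)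
    (hXY : ∀ x ∈ F, X x ≤ Y x) (hM : ∀ x ∈ F, x ∉ E → X x ≤ M x ∧ M x ≤ Y x)
    (hX : ∀ A, |((F ∩ {x | X x ∈ A}).ncard : ℝ) - P A * F.ncard| ≤ ε * F.ncard)
    (hY : ∀ A, |((F ∩ {x | Y x ∈ A}).ncard : ℝ) - P A * F.ncard| ≤ ε * F.ncard)
    (hE : ((F ∩ E).ncard : ℝ) ≤ η * F.ncard) (hP : P (Set.Ici K) ≤ τ) (A : Set ℕ) :
    |((F ∩ {x | M x ∈ A}).ncard : ℝ) - P A * F.ncard| ≤ ((2 * K + 2) * ε + τ + η) * F.ncard := by
  classical
  set G := hF.toFinset with hG
  have hm : ∀ S : Set ℝ, ((F ∩ S).ncard : ℝ) = ∑ x ∈ G, if x ∈ S then (1 : ℝ) else 0 := by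
    intro S
    have h1 : F ∩ S = ((G.filter fun x => x ∈ S : Finset ℝ) : Set ℝ) := by
      ext x
      simp [hG]
    rw [h1, Set.ncard_coe_finset, Finset.sum_ite, Finset.sum_const_zero, add_zero, Finset.sum_const,
      nsmul_eq_mul, mul_one]
  have hFn : (0 : ℝ) ≤ F.ncard := Nat.cast_nonneg _
  have hGF : ∀ x ∈ G, x ∈ F := fun x hx => by rwa [hG, Set.Finite.mem_toFinset] at hx
  -- the set where `X < Y`
  have hD : ((F ∩ {x | X x < Y x}).ncard : ℝ) ≤ ((2 * K + 1) * ε + τ) * F.ncard := by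
    have h1 : ((F ∩ {x | X x < Y x}).ncard : ℝ) ≤ ((F ∩ {x | Y x ∈ Set.Ici K}).ncard : ℝ) +
        ∑ k ∈ range K, (((F ∩ {x | X x ∈ Set.Iic k}).ncard : ℝ) - ((F ∩ {x | Y x ∈ Set.Iic k}).ncard : ℝ)) := by
      simp only [hm]
      simp only [← Finset.sum_sub_distrib]
      rw [Finset.sum_comm, ← Finset.sum_add_distrib]
      refine Finset.sum_le_sum fun x hx => ?_
      have hxy := hXY x (hGF x hx)
      simp only [Set.mem_ofPred_eq, Set.mem_Ici, Set.mem_Iic]
      have hnn : ∀ k, (0 : ℝ) ≤ (if X x ≤ k then (1 : ℝ) else 0) - (if Y x ≤ k then (1 : ℝ) else 0) := by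
        intro k
        by_cases h1 : Y x ≤ k
        · rw [if_pos h1, if_pos (hxy.trans h1)]
          norm_num
        · rw [if_neg h1]
          split_ifs <;> norm_num
      by_cases h1 : X x < Y x
      · rw [if_pos h1]
        by_cases h2 : K ≤ Y x
        · rw [if_pos h2]
          have := Finset.sum_nonneg (s := range K) fun k _ => hnn k
          linarith
        · rw [if_neg h2]
          have h3 : X x ∈ range K := by rw [mem_range]; omega
          have h4 := Finset.single_le_sum (s := range K) (fun k _ => hnn k) h3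
          rw [if_pos le_rfl, if_neg (by omega)] at h4
          linarith
      · rw [if_neg h1]
        have := Finset.sum_nonneg (s := range K) fun k _ => hnn k
        have h2 : (0 : ℝ) ≤ if K ≤ Y x then (1 : ℝ) else 0 := by split_ifs <;> norm_num
        linarith
    have h2 : ((F ∩ {x | Y x ∈ Set.Ici K}).ncard : ℝ) ≤ (τ + ε) * F.ncard := by
      have h3 := (abs_le.1 (hY (Set.Ici K))).2
      have h4 := mul_le_mul_of_nonneg_right hP hFn
      rw [add_mul]
      linarith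
    have h3 : ∑ k ∈ range K, (((F ∩ {x | X x ∈ Set.Iic k}).ncard : ℝ) - ((F ∩ {x | Y x ∈ Set.Iic k}).ncard : ℝ)) ≤
        ∑ k ∈ range K, 2 * ε * (F.ncard : ℝ) := by
      refine Finset.sum_le_sum fun k _ => ?_
      have h4 := (abs_le.1 (hX (Set.Iic k))).2
      have h5 := (abs_le.1 (hY (Set.Iic k))).1
      linarith
    rw [Finset.sum_const, Finset.card_range, nsmul_eq_mul] at h3
    calc ((F ∩ {x | X x < Y x}).ncard : ℝ) ≤ (τ + ε) * F.ncard + K * (2 * ε * (F.ncard : ℝ)) :=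
          h1.trans (add_le_add h2 h3)
      _ = ((2 * K + 1) * ε + τ) * F.ncard := by ring
  -- the difference of the counts
  have hdiff : |((F ∩ {x | M x ∈ A}).ncard : ℝ) - ((F ∩ {x | Y x ∈ A}).ncard : ℝ)| ≤
      ((F ∩ {x | X x < Y x}).ncard : ℝ) + ((F ∩ E).ncard : ℝ) := by
    simp only [hm]
    rw [← Finset.sum_sub_distrib, ← Finset.sum_add_distrib]
    refine (Finset.abs_sum_le_sum_abs _ _).trans (Finset.sum_le_sum fun x hx => ?_)
    have hxy := hXY x (hGF x hx)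
    simp only [Set.mem_ofPred_eq]
    by_cases hxE : x ∈ E
    · rw [if_pos hxE]
      have h3 : ∀ a b : ℝ, (a = 0 ∨ a = 1) → (b = 0 ∨ b = 1) → |a - b| ≤ 1 := by
        rintro a b (rfl | rfl) (rfl | rfl) <;> norm_num
      refine (h3 _ _ ?_ ?_).trans (le_add_of_nonneg_left (by split_ifs <;> norm_num))
      · split_ifs <;> simp
      · split_ifs <;> simp
    · rw [if_neg hxE, add_zero]
      obtain ⟨h1, h2⟩ := hM x (hGF x hx) hxE
      by_cases h3 : X x < Y x
      · rw [if_pos h3]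
        split_ifs <;> norm_num
      · rw [if_neg h3]
        have h4 : M x = Y x := by omega
        have h6 : ∀ a b : ℝ, a = b → |a - b| ≤ 0 := by
          rintro a b rfl
          simp
        apply h6
        by_cases h5 : Y x ∈ A
        · rw [if_pos h5, if_pos (by rw [h4]; exact h5)]
        · rw [if_neg h5, if_neg (by rw [h4]; exact h5)]
  have h5 := hY A
  have h6 : ((F ∩ {x | M x ∈ A}).ncard : ℝ) - P A * F.ncard =
      (((F ∩ {x | M x ∈ A}).ncard : ℝ) - ((F ∩ {x | Y x ∈ A}).ncard : ℝ)) +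
      (((F ∩ {x | Y x ∈ A}).ncard : ℝ) - P A * F.ncard) := by ring
  rw [h6]
  refine (abs_add_le _ _).trans ?_
  have h7 : ((2 * (K : ℝ) + 2) * ε + τ + η) * F.ncard = ((2 * K + 1) * ε + τ) * F.ncard + η * F.ncard + ε * F.ncard := by
    ring
  rw [h7]
  linarith

/-- the mean -/
theorem mean_bd (c y t : ℝ) (hc : 0 < c) (hc1 : c < 1) (hy : 0 < y) (ht : 0 ≤ t) (H : ℕ) (hH : 2 ≤ H) :
    |Mn ⌊(H : ℝ) ^ c⌋₊ (fun _ => 1 / (y * Real.log H + t)) 1 - 12 * c / (Real.pi ^ 2 * y)| ≤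
      2 * ((y + t) / (y * (y * Real.log H + t))) := by
  have hH0 : (0 : ℝ) < H := by exact_mod_cast (by omega : 0 < H)
  have hH1 : (1 : ℝ) < H := by exact_mod_cast (by omega : 1 < H)
  have hl : 0 < Real.log H := Real.log_pos hH1
  set w : ℝ := y * Real.log H + t with hw
  have hw0 : 0 < w := by positivity
  have hN1 : 1 ≤ (H : ℝ) ^ c := Real.one_le_rpow hH1.le hc.le
  set m : ℕ := ⌊(H : ℝ) ^ c⌋₊ with hm
  have hm1 : 1 ≤ m := by
    rw [hm]
    exact Nat.le_floor (by exact_mod_cast hN1)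
  set S : ℝ := ∑ n ∈ Ioc 1 m, (1 : ℝ) / n with hS
  have hharm : (harmonic m : ℝ) = 1 + S := by
    rw [harmonic_eq_sum_Icc, hS]
    push_cast
    rw [Finset.Icc_eq_cons_Ioc hm1, Finset.sum_cons]
    simp
  have h1 := log_le_harmonic_floor ((H : ℝ) ^ c) (by positivity)
  have h2 := harmonic_floor_le_one_add_log ((H : ℝ) ^ c) hN1
  rw [← hm, hharm, Real.log_rpow hH0] at h1 h2
  have h3 : |S - c * Real.log H| ≤ 1 := by
    rw [abs_le]
    constructor <;> linarith
  have hMn : Mn m (fun _ => 1 / w) 1 = 12 / Real.pi ^ 2 * (S / w) := by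
    unfold Mn
    congr 1
    rw [hS, Finset.sum_div]
    refine Finset.sum_congr rfl fun n _ => ?_
    rw [div_div, div_div, mul_comm]
  have hpi : (0 : ℝ) < Real.pi ^ 2 := by positivity
  have e1 : 12 / Real.pi ^ 2 * (S / w) - 12 * c / (Real.pi ^ 2 * y) =
      12 / Real.pi ^ 2 * ((y * (S - c * Real.log H) - c * t) / (y * w)) := by
    rw [hw]
    field_simp
    ring
  rw [hMn, e1, abs_mul, abs_of_pos (by positivity : 0 < 12 / Real.pi ^ 2)]
  have hpi2 : 12 / Real.pi ^ 2 ≤ 2 := by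
    rw [div_le_iff₀ hpi]
    have := Real.pi_gt_three
    nlinarith
  have h4 : |(y * (S - c * Real.log H) - c * t) / (y * w)| ≤ (y + t) / (y * w) := by
    rw [abs_div, abs_of_pos (by positivity : 0 < y * w)]
    apply div_le_div_of_nonneg_right _ (by positivity)
    refine (abs_sub _ _).trans (add_le_add ?_ ?_)
    · rw [abs_mul, abs_of_pos hy]
      nlinarith [abs_nonneg (S - c * Real.log H)]
    · rw [abs_of_nonneg (by positivity)]
      nlinarith
  exact mul_le_mul hpi2 h4 (abs_nonneg _) (by norm_num)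

end Pool.Agent.D0H53.AQ
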