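import Pool.Agent.D0H53.AQ.Lg

set_option autoImplicit false

/-!
# The sums of the partial quotients from below
-/

open Finset Filter Topology

namespace Pool.Agent.D0H53.AQ

open Pool.Agent.D0H53.PL

/-- a number is at least the sum of the dyadic layers below it -/
theorem layer (J : ℕ) : ∀ z a : ℝ, 0 ≤ z → 0 ≤ a →
    ∑ j ∈ range J, z / 2 ^ j / 2 * (if z / 2 ^ j < a then (1 : ℝ) else 0) ≤ a := by
  induction J with
  | zero =>
    intro z a _ ha
    simpa using ha
  | succ J ih =>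
    intro z a hz ha
    rw [Finset.sum_range_succ']
    simp only [pow_zero, div_one]
    have e : ∀ j : ℕ, z / 2 ^ (j + 1) = (z / 2) / 2 ^ j := by
      intro j
      rw [pow_succ, mul_comm, ← div_div]
    simp only [e]
    by_cases h : z < a
    · rw [if_pos h]
      have h1 : ∑ j ∈ range J, z / 2 / 2 ^ j / 2 * (if z / 2 / 2 ^ j < a then (1 : ℝ) else 0) ≤
          ∑ j ∈ range J, z / 4 * (1 / 2 : ℝ) ^ j := by
        refine Finset.sum_le_sum fun j _ => ?_
        have e1 : z / 2 / 2 ^ j / 2 = z / 4 * (1 / 2 : ℝ) ^ j := by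
          rw [one_div, inv_pow]
          field_simp
          ring
        rw [e1]
        have h0 : 0 ≤ z / 4 * (1 / 2 : ℝ) ^ j := by positivity
        split_ifs
        · rw [mul_one]
        · rw [mul_zero]
          exact h0
      have h2 : ∑ j ∈ range J, z / 4 * (1 / 2 : ℝ) ^ j ≤ z / 2 := by
        rw [← Finset.mul_sum]
        have := sum_geometric_two_le J
        nlinarith
      linarith
    · rw [if_neg h]
      have := ih (z / 2) a (by positivity) ha
      linarith

/-- the sum of the partial quotients with `q_n ≤ N` -/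
theorem sum_ge (α : ℝ) (hirr : Irrational α) (N z : ℝ) (hN : 1 ≤ N) (hz : 0 ≤ z) (J : ℕ) :
    ∃ m : ℕ, 1 ≤ m ∧ (GenContFract.of α).dens (m - 1) ≤ N ∧ (m : ℝ) ≤ 2 + 2 * (Real.log N / Real.log 2) ∧
      ∑ j ∈ range J, z / 2 ^ j / 2 * (lg N (z / 2 ^ j) α : ℝ) ≤
        ∑ k ∈ range m, ((GenContFract.of α).partDens.get? k).getD 0 := by
  classical
  have hB' := (dens_facts α hirr).1
  obtain ⟨b, A, B, hb1, hBp, hbeq, hBeq, hcv, hB0, hB1, hBr, hap, hup, hdet⟩ := cf_more α hirr
  have hstep : ∀ k, B k ≤ B (k + 1) := by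
    intro k
    rcases k with _ | k
    · rw [hB0]
      exact hBp _
    · rw [hBr k]
      have := hb1 (k + 1)
      nlinarith [hBp k, hBp (k + 1)]
  have hmono : Monotone B := monotone_nat_of_le_succ hstep
  have hpow : ∀ n, 2 ^ n ≤ B (2 * n) := by
    intro n
    induction n with
    | zero => rw [mul_zero, hB0, pow_zero]
    | succ n ih =>
      have h1 : B (2 * (n + 1)) = b (2 * n + 1) * B (2 * n + 1) + B (2 * n) := by
        rw [show 2 * (n + 1) = 2 * n + 2 by ring]
        exact hBr (2 * n)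
      have h2 := hb1 (2 * n + 1)
      have h3 := hstep (2 * n)
      rw [h1, pow_succ]
      nlinarith
  have hex : ∃ n : ℕ, N < (B n : ℝ) := by
    refine ⟨⌊N⌋₊ + 1, ?_⟩
    have h1 := hB' (⌊N⌋₊ + 1)
    rw [hBeq] at h1
    refine lt_of_lt_of_le ?_ h1
    push_cast
    exact Nat.lt_floor_add_one N
  set m := Nat.find hex with hm
  have hm1 := Nat.find_spec hex
  have hm2 : ∀ n, n < m → (B n : ℝ) ≤ N := fun n hn => not_lt.1 (Nat.find_min hex hn)
  have hm0 : 1 ≤ m := by
    by_contra hcon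
    have h0 : m = 0 := by omega
    rw [← hm, h0, hB0] at hm1
    norm_num at hm1
    linarith
  have hget : ∀ k, ((GenContFract.of α).partDens.get? k).getD 0 = (b k : ℝ) := by
    intro k
    rw [hbeq]
    rfl
  have hlg : ∀ w : ℝ, lg N w α = ((range m).filter fun n => w < (b n : ℝ)).card := by
    intro w
    unfold lg
    rw [← Set.ncard_coe_finset]
    congr 1
    ext n
    simp only [Set.mem_ofPred_eq, Finset.coe_filter, Finset.mem_range, hBeq, hget]
    constructor
    · rintro ⟨h1, h2⟩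
      refine ⟨?_, h2⟩
      by_contra hcon
      have h3 : (B m : ℝ) ≤ B n := by exact_mod_cast hmono (not_lt.1 hcon)
      linarith
    · rintro ⟨h1, h2⟩
      exact ⟨hm2 n h1, h2⟩
  refine ⟨m, hm0, ?_, ?_, ?_⟩
  · rw [hBeq]
    exact hm2 (m - 1) (by omega)
  · have h1 : (2 : ℝ) ^ ((m - 1) / 2) ≤ N := by
      refine le_trans ?_ (hm2 (m - 1) (by omega))
      have h2 := (hpow ((m - 1) / 2)).trans (hmono (Nat.mul_div_le (m - 1) 2))
      exact_mod_cast h2
    have h2 := Real.log_le_log (by positivity) h1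
    rw [Real.log_pow] at h2
    have hl2 : 0 < Real.log 2 := Real.log_pos (by norm_num)
    rw [← le_div_iff₀ hl2] at h2
    have h3 : m ≤ 2 + 2 * ((m - 1) / 2) := by omega
    have h4 : (m : ℝ) ≤ 2 + 2 * (((m - 1) / 2 : ℕ) : ℝ) := by exact_mod_cast h3
    linarith
  · have e1 : ∑ j ∈ range J, z / 2 ^ j / 2 * (lg N (z / 2 ^ j) α : ℝ) =
        ∑ k ∈ range m, ∑ j ∈ range J, z / 2 ^ j / 2 * (if z / 2 ^ j < (b k : ℝ) then (1 : ℝ) else 0) := by
      rw [Finset.sum_comm]
      refine Finset.sum_congr rfl fun j _ => ?_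
      rw [← Finset.mul_sum, hlg, Finset.card_filter]
      push_cast
      rfl
    rw [e1]
    refine Finset.sum_le_sum fun k _ => ?_
    rw [hget]
    exact layer J z (b k) hz (Nat.cast_nonneg _)

/-- the lower tail of the Poisson law -/
theorem po_low (r : ℝ) (hr : 0 ≤ r) :
    (ProbabilityTheory.poissonMeasure r.toNNReal).real {k : ℕ | (k : ℝ) ≤ r / 4} ≤ Real.exp (-(r / 4)) := by
  have h1 : {k : ℕ | (k : ℝ) ≤ r / 4} = ((range (⌊r / 4⌋₊ + 1) : Finset ℕ) : Set ℕ) := by
    ext k
    simp only [Set.mem_ofPred_eq, Finset.coe_range, Set.mem_Iio, Nat.lt_succ_iff]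
    exact (Nat.le_floor_iff (by positivity)).symm
  rw [h1, po_real r hr]
  have h2 : ∀ j ∈ range (⌊r / 4⌋₊ + 1), po r j ≤ Real.exp (-r) * Real.exp (r / 4) * ((r / 2) ^ j / j.factorial) := by
    intro j hj
    rw [mem_range, Nat.lt_succ_iff] at hj
    have hj' : (j : ℝ) ≤ r / 4 := (Nat.le_floor_iff (by positivity)).1 hj
    have h3 : (2 : ℝ) ^ j ≤ Real.exp (r / 4) := by
      have h4 : (2 : ℝ) ≤ Real.exp 1 := by
        have := Real.add_one_le_exp (1 : ℝ)
        linarith
      calc (2 : ℝ) ^ j ≤ Real.exp 1 ^ j := pow_le_pow_left₀ (by norm_num) h4 j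
        _ = Real.exp j := Real.exp_one_pow j
        _ ≤ Real.exp (r / 4) := Real.exp_le_exp.2 hj'
    have e1 : po r j = Real.exp (-r) * 2 ^ j * ((r / 2) ^ j / j.factorial) := by
      unfold po
      rw [div_pow]
      field_simp
    rw [e1]
    apply mul_le_mul_of_nonneg_right _ (by positivity)
    exact mul_le_mul_of_nonneg_left h3 (Real.exp_pos _).le
  refine (Finset.sum_le_sum h2).trans ?_
  rw [← Finset.mul_sum]
  have h3 := Real.sum_le_exp_of_nonneg (by positivity : 0 ≤ r / 2) (⌊r / 4⌋₊ + 1)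
  refine (mul_le_mul_of_nonneg_left h3 (by positivity)).trans (le_of_eq ?_)
  rw [← Real.exp_add, ← Real.exp_add]
  congr 1
  ring

end Pool.Agent.D0H53.AQ
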