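import Mathlib

set_option autoImplicit false

/-!
# Large partial quotients and good rational approximations
-/

namespace Pool.Agent.D0H53.AQ

/-- partial quotients, numerators and denominators of the convergents of an irrational number, with the
determinant and the distance to the convergents -/
theorem cf_more (α : ℝ) (hirr : Irrational α) :
    ∃ (b : ℕ → ℕ) (A : ℕ → ℤ) (B : ℕ → ℕ), (∀ k, 1 ≤ b k) ∧ (∀ k, 1 ≤ B k) ∧
      (∀ k, (GenContFract.of α).partDens.get? k = some (b k : ℝ)) ∧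
      (∀ k, (GenContFract.of α).dens k = (B k : ℝ)) ∧
      (∀ k, (GenContFract.of α).convs k = (A k : ℝ) / B k) ∧
      B 0 = 1 ∧ B 1 = b 0 ∧ (∀ k, B (k + 2) = b (k + 1) * B (k + 1) + B k) ∧
      (∀ k, |α - A k / B k| ≤ 1 / ((b k : ℝ) * B k * B k)) ∧
      (∀ k, |α - A k / B k| ≤ 1 / ((B k : ℝ) * B (k + 1))) ∧
      ∀ k, A k * (B (k + 1) : ℤ) - (B k : ℤ) * A (k + 1) = (-1) ^ (k + 1) := by
  set g := GenContFract.of α with hg
  have hnt : ∀ k, ¬ g.TerminatedAt k := by
    intro k hk
    have h1 : g.Terminates := ⟨k, hk⟩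
    rw [hg, GenContFract.terminates_iff_rat] at h1
    obtain ⟨q, hq⟩ := h1
    exact hirr ⟨q, hq.symm⟩
  have hs : ∀ k, ∃ gp, g.s.get? k = some gp := by
    intro k
    have h1 := hnt k
    rw [GenContFract.terminatedAt_iff_s_none] at h1
    exact Option.ne_none_iff_exists'.1 h1
  choose gp hgp using hs
  have hpd : ∀ k, g.partDens.get? k = some (gp k).b := fun k =>
    GenContFract.partDen_eq_s_b (hgp k)
  have hpn : ∀ k, (gp k).a = 1 := fun k =>
    GenContFract.of_partNum_eq_one (GenContFract.partNum_eq_s_a (hgp k))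
  have hb : ∀ k, ∃ n : ℕ, 1 ≤ n ∧ (gp k).b = n := by
    intro k
    obtain ⟨z, hz⟩ := GenContFract.exists_int_eq_of_partDen (hpd k)
    have h1 := GenContFract.of_one_le_get?_partDen (hpd k)
    rw [hz] at h1
    have h2 : 1 ≤ z := by exact_mod_cast h1
    refine ⟨z.toNat, by omega, ?_⟩
    rw [hz]
    have : ((z.toNat : ℕ) : ℤ) = z := Int.toNat_of_nonneg (by omega)
    exact_mod_cast this.symm
  choose b hb1 hbeq using hb
  -- denominators
  have hB : ∀ k, (∃ n : ℕ, g.dens k = n) ∧ ∃ n : ℕ, g.dens (k + 1) = n := by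
    intro k
    induction k with
    | zero =>
      refine ⟨⟨1, by simp⟩, ⟨b 0, ?_⟩⟩
      rw [zero_add, GenContFract.first_den_eq (hgp 0), hbeq]
    | succ k ih =>
      obtain ⟨⟨n1, h1⟩, ⟨n2, h2⟩⟩ := ih
      refine ⟨⟨n2, h2⟩, ⟨b (k + 1) * n2 + n1, ?_⟩⟩
      rw [GenContFract.dens_recurrence (hgp (k + 1)) h1 h2, hbeq, hpn]
      push_cast
      ring
  have hA : ∀ k, (∃ n : ℤ, g.nums k = n) ∧ ∃ n : ℤ, g.nums (k + 1) = n := by
    intro k
    induction k with
    | zero =>
      have h0 : g.h = ((⌊α⌋ : ℤ) : ℝ) := GenContFract.of_h_eq_floor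
      refine ⟨⟨⌊α⌋, by simp [h0]⟩, ⟨b 0 * ⌊α⌋ + 1, ?_⟩⟩
      rw [zero_add, GenContFract.first_num_eq (hgp 0), hbeq, hpn, h0]
      push_cast
      ring
    | succ k ih =>
      obtain ⟨⟨n1, h1⟩, ⟨n2, h2⟩⟩ := ih
      refine ⟨⟨n2, h2⟩, ⟨b (k + 1) * n2 + n1, ?_⟩⟩
      rw [GenContFract.nums_recurrence (hgp (k + 1)) h1 h2, hbeq, hpn]
      push_cast
      ring
  choose B hBeq using fun k => (hB k).1
  choose A hAeq using fun k => (hA k).1
  have hB0 : B 0 = 1 := by
    have h1 := hBeq 0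
    rw [GenContFract.zeroth_den_eq_one] at h1
    exact_mod_cast h1.symm
  have hB1 : B 1 = b 0 := by
    have h1 := hBeq 1
    rw [GenContFract.first_den_eq (hgp 0), hbeq] at h1
    exact_mod_cast h1.symm
  have hBr : ∀ k, B (k + 2) = b (k + 1) * B (k + 1) + B k := by
    intro k
    have h1 := hBeq (k + 2)
    rw [GenContFract.dens_recurrence (hgp (k + 1)) (hBeq k) (hBeq (k + 1)), hbeq, hpn] at h1
    have h2 : ((B (k + 2) : ℕ) : ℝ) = ((b (k + 1) * B (k + 1) + B k : ℕ) : ℝ) := by
      push_cast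
      linarith
    exact_mod_cast h2
  have hBpos : ∀ k, 1 ≤ B k ∧ 1 ≤ B (k + 1) := by
    intro k
    induction k with
    | zero => exact ⟨by omega, by rw [zero_add, hB1]; exact hb1 0⟩
    | succ k ih =>
      refine ⟨ih.2, ?_⟩
      rw [hBr k]
      have := ih.1
      omega
  refine ⟨b, A, B, hb1, fun k => (hBpos k).1, fun k => by rw [hpd, hbeq], hBeq, fun k => ?_, hB0, hB1, hBr,
    fun k => ?_, fun k => ?_, fun k => ?_⟩
  · rw [GenContFract.conv_eq_num_div_den, hAeq, hBeq]
  · have h1 := GenContFract.abs_sub_convergents_le' (hpd k)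
    rw [GenContFract.conv_eq_num_div_den, hAeq, hBeq, hbeq] at h1
    exact h1
  · have h1 := GenContFract.abs_sub_convs_le (hnt k)
    rw [GenContFract.conv_eq_num_div_den, hAeq, hBeq, hBeq] at h1
    exact h1
  · have h1 := GenContFract.determinant (g := g) (n := k)
    have h2 : ∏ i ∈ Finset.range (k + 1), - (g.partNums.get? i).getD 0 = (-1 : ℝ) ^ (k + 1) := by
      rw [Finset.prod_congr rfl (g := fun _ => (-1 : ℝ)) fun i _ => by
        rw [GenContFract.partNum_eq_s_a (hgp i), hpn, Option.getD_some]]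
      rw [Finset.prod_const, Finset.card_range]
    rw [h2, hAeq, hBeq, hAeq, hBeq] at h1
    exact_mod_cast h1

/-- if `p / q` is reduced and `|α - p / q| ≤ 1 / (w q²)`, `w > 2`, then `q` is the denominator of a convergent and
the next partial quotient is at least `w - 3` -/
theorem large_of_hit (α : ℝ) (hirr : Irrational α) (p : ℤ) (q : ℕ) (hq : 1 ≤ q) (hpq : IsCoprime p (q : ℤ))
    (w : ℝ) (hw : 2 < w) (h : |α - (p : ℝ) / q| ≤ 1 / w / (q : ℝ) ^ 2) :
    ∃ n, (GenContFract.of α).dens n = (q : ℝ) ∧ (GenContFract.of α).convs n = (p : ℝ) / q ∧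
      w - 3 ≤ ((GenContFract.of α).partDens.get? n).getD 0 := by
  obtain ⟨b, A, B, hb1, hBp, hbeq, hBeq, hcv, hB0, hB1, hBr, -, hup, hdet⟩ := cf_more α hirr
  have hq0 : (0 : ℝ) < q := by exact_mod_cast hq
  have hw0 : 0 < w := by linarith
  -- the rational number `p / q`
  set r : ℚ := (p : ℚ) / (q : ℚ) with hr
  have hcop : Nat.Coprime p.natAbs q := by
    have := Int.isCoprime_iff_gcd_eq_one.1 hpq
    simpa [Int.gcd] using this
  have hden : r.den = q := by
    have h1 := Rat.den_div_eq_of_coprime (a := p) (b := (q : ℤ)) (by exact_mod_cast hq) (by simpa using hcop)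
    have h2 : (r.den : ℤ) = (q : ℤ) := by
      rw [hr]
      exact_mod_cast h1
    exact_mod_cast h2
  have hnum : r.num = p := by
    have h1 := Rat.num_div_eq_of_coprime (a := p) (b := (q : ℤ)) (by exact_mod_cast hq) (by simpa using hcop)
    rw [hr]
    exact_mod_cast h1
  have hrR : (r : ℝ) = (p : ℝ) / q := by
    rw [hr]
    push_cast
    rfl
  obtain ⟨n, hn⟩ := Real.exists_convs_eq_rat (ξ := α) (q := r) (by
    rw [hrR, hden]
    refine lt_of_le_of_lt h ?_
    rw [div_div, one_div_lt_one_div (by positivity) (by positivity)]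
    have : 0 < (q : ℝ) ^ 2 := by positivity
    nlinarith)
  -- the convergent is reduced
  have hBn0 : (0 : ℝ) < B n := by exact_mod_cast hBp n
  have hBn : B n = q := by
    have hcv' : (((A n : ℚ) / (B n : ℚ) : ℚ) : ℝ) = (r : ℝ) := by
      rw [← hn, hcv n]
      push_cast
      rfl
    have hcv2 : (A n : ℚ) / (B n : ℚ) = r := by exact_mod_cast hcv'
    have hc : IsCoprime (A n) (B n : ℤ) := by
      have hd := hdet n
      rcases Nat.even_or_odd (n + 1) with he | ho
      · rw [he.neg_one_pow] at hd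
        exact ⟨(B (n + 1) : ℤ), -A (n + 1), by linarith⟩
      · rw [ho.neg_one_pow] at hd
        exact ⟨-(B (n + 1) : ℤ), A (n + 1), by linarith⟩
    have hc' : Nat.Coprime (A n).natAbs (B n) := by
      have := Int.isCoprime_iff_gcd_eq_one.1 hc
      simpa [Int.gcd] using this
    have h1 := Rat.den_div_eq_of_coprime (a := A n) (b := (B n : ℤ)) (by exact_mod_cast hBp n) (by simpa using hc')
    have h2 : (r.den : ℤ) = (B n : ℤ) := by
      rw [← hcv2]
      exact_mod_cast h1
    rw [hden] at h2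
    exact_mod_cast h2.symm
  have hAn : (A n : ℝ) / B n = (p : ℝ) / q := by
    rw [← hcv n, hn, hrR]
  refine ⟨n, by rw [hBeq, hBn], by rw [hn, hrR], ?_⟩
  rw [hbeq]
  show w - 3 ≤ (b n : ℝ)
  -- distance of two consecutive convergents
  have hB1' : (0 : ℝ) < B (n + 1) := by exact_mod_cast hBp (n + 1)
  have hB2' : (0 : ℝ) < B (n + 2) := by exact_mod_cast hBp (n + 2)
  have hdist : |(A n : ℝ) / B n - A (n + 1) / B (n + 1)| = 1 / ((B n : ℝ) * B (n + 1)) := by
    have hd : (A n : ℝ) * B (n + 1) - B n * A (n + 1) = (-1) ^ (n + 1) := by exact_mod_cast hdet n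
    have e : (A n : ℝ) / B n - A (n + 1) / B (n + 1) = (-1) ^ (n + 1) / ((B n : ℝ) * B (n + 1)) := by
      rw [← hd]
      field_simp
    rw [e, abs_div, abs_pow, abs_neg, abs_one, one_pow, abs_of_pos (by positivity)]
  have h1 : 1 / ((B n : ℝ) * B (n + 1)) ≤ 1 / w / (B n : ℝ) ^ 2 + 1 / ((B (n + 1) : ℝ) * B (n + 2)) := by
    rw [← hdist]
    have e1 : |α - (A n : ℝ) / B n| ≤ 1 / w / (B n : ℝ) ^ 2 := by
      rw [hAn, hBn]
      exact h
    have e2 := hup (n + 1)
    have e3 : (A n : ℝ) / B n - A (n + 1) / B (n + 1) = (α - A (n + 1) / B (n + 1)) - (α - A n / B n) := by ring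
    rw [e3]
    refine (abs_sub _ _).trans ?_
    linarith
  -- multiply by `B n * B (n + 1)`
  have hb1' : (1 : ℝ) ≤ b n := by exact_mod_cast hb1 n
  have hle1 : (B (n + 1) : ℝ) ≤ ((b n : ℝ) + 1) * B n := by
    rcases n with _ | k
    · rw [zero_add, hB1, hB0]
      push_cast
      linarith
    · rw [hBr k]
      push_cast
      have : (B k : ℝ) ≤ B (k + 1) := by
        rcases k with _ | l
        · rw [zero_add, hB1, hB0]
          exact_mod_cast hb1 0
        · rw [hBr l]
          have h3 : B (l + 1) ≤ b (l + 1) * B (l + 1) + B l := by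
            have := hb1 (l + 1)
            nlinarith [hBp (l + 1), hBp l]
          exact_mod_cast h3
      linarith
  have hge1 : (b n : ℝ) * B n ≤ B (n + 1) := by
    rcases n with _ | k
    · rw [zero_add, hB1, hB0]
      push_cast
      linarith
    · rw [hBr k]
      push_cast
      have : (0 : ℝ) ≤ B k := Nat.cast_nonneg _
      linarith
  have hge2 : ((b n : ℝ) + 1) * B n ≤ B (n + 2) := by
    rw [hBr n]
    push_cast
    have h3 : (1 : ℝ) ≤ b (n + 1) := by exact_mod_cast hb1 (n + 1)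
    nlinarith
  have h2 : 1 ≤ (B (n + 1) : ℝ) / (w * B n) + B n / B (n + 2) := by
    have h3 := mul_le_mul_of_nonneg_left h1 (by positivity : (0 : ℝ) ≤ B n * B (n + 1))
    have e1 : (B n : ℝ) * B (n + 1) * (1 / ((B n : ℝ) * B (n + 1))) = 1 := by field_simp
    have e2 : (B n : ℝ) * B (n + 1) * (1 / w / (B n : ℝ) ^ 2 + 1 / ((B (n + 1) : ℝ) * B (n + 2))) =
        (B (n + 1) : ℝ) / (w * B n) + B n / B (n + 2) := by field_simp
    rw [e1, e2] at h3
    exact h3
  have h3 : (B (n + 1) : ℝ) / (w * B n) ≤ ((b n : ℝ) + 1) / w := by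
    rw [div_le_div_iff₀ (by positivity) hw0]
    calc (B (n + 1) : ℝ) * w ≤ (((b n : ℝ) + 1) * B n) * w := mul_le_mul_of_nonneg_right hle1 hw0.le
      _ = ((b n : ℝ) + 1) * (w * B n) := by ring
  have h4 : (B n : ℝ) / B (n + 2) ≤ 1 / ((b n : ℝ) + 1) := by
    rw [div_le_div_iff₀ hB2' (by positivity)]
    linarith
  have h5 : 1 ≤ ((b n : ℝ) + 1) / w + 1 / ((b n : ℝ) + 1) := by linarith
  have h6 : w * ((b n : ℝ) + 1) ≤ ((b n : ℝ) + 1) ^ 2 + w := by
    have h7 := mul_le_mul_of_nonneg_left h5 (by positivity : (0 : ℝ) ≤ w * ((b n : ℝ) + 1))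
    have e1 : w * ((b n : ℝ) + 1) * (((b n : ℝ) + 1) / w + 1 / ((b n : ℝ) + 1)) = ((b n : ℝ) + 1) ^ 2 + w := by
      field_simp
    rw [e1, mul_one] at h7
    exact h7
  by_contra hcon
  rw [not_le] at hcon
  nlinarith

/-- a partial quotient larger than `z` gives a reduced fraction with `|α - p / q| ≤ 1 / (z q²)` -/
theorem hit_of_large (α : ℝ) (hirr : Irrational α) (n : ℕ) (z : ℝ) (hz : 0 < z)
    (h : z < ((GenContFract.of α).partDens.get? n).getD 0) :
    ∃ (p : ℤ) (q : ℕ), 1 ≤ q ∧ (GenContFract.of α).dens n = (q : ℝ) ∧ IsCoprime p (q : ℤ) ∧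
      |α - (p : ℝ) / q| ≤ 1 / z / (q : ℝ) ^ 2 := by
  obtain ⟨b, A, B, hb1, hBp, hbeq, hBeq, hcv, hB0, hB1, hBr, hap, hup, hdet⟩ := cf_more α hirr
  refine ⟨A n, B n, hBp n, hBeq n, ?_, (hap n).trans ?_⟩
  · have hd := hdet n
    rcases Nat.even_or_odd (n + 1) with he | ho
    · rw [he.neg_one_pow] at hd
      exact ⟨(B (n + 1) : ℤ), -A (n + 1), by linarith⟩
    · rw [ho.neg_one_pow] at hd
      exact ⟨-(B (n + 1) : ℤ), A (n + 1), by linarith⟩
  · rw [hbeq] at h
    have h' : z < (b n : ℝ) := h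
    have hBn0 : (0 : ℝ) < B n := by exact_mod_cast hBp n
    rw [div_div]
    apply one_div_le_one_div_of_le (by positivity)
    have : 0 < (B n : ℝ) ^ 2 := by positivity
    nlinarith

/-- the denominators with `q_n ≤ 1` belong to the first two partial quotients -/
theorem den_one (α : ℝ) (hirr : Irrational α) (n : ℕ) (h : (GenContFract.of α).dens n ≤ 1) : n ≤ 1 ∧
    ((GenContFract.of α).partDens.get? n).getD 0 ≤
      ∑ k ∈ Finset.range (n + 1), ((GenContFract.of α).partDens.get? k).getD 0 := by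
  obtain ⟨b, A, B, hb1, hBp, hbeq, hBeq, hcv, hB0, hB1, hBr, hap, hup, hdet⟩ := cf_more α hirr
  constructor
  · by_contra hcon
    obtain ⟨k, rfl⟩ : ∃ k, n = k + 2 := ⟨n - 2, by omega⟩
    rw [hBeq, hBr] at h
    have h1 : b (k + 1) * B (k + 1) + B k ≤ 1 := by exact_mod_cast h
    have h2 := hb1 (k + 1)
    nlinarith [hBp (k + 1), hBp k]
  · apply Finset.single_le_sum (f := fun k => ((GenContFract.of α).partDens.get? k).getD 0) (fun k _ => ?_)
      (Finset.self_mem_range_succ n)
    simp only [hbeq, Option.getD_some]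
    exact Nat.cast_nonneg _

/-- the denominators -/
theorem dens_facts (α : ℝ) (hirr : Irrational α) :
    (∀ n : ℕ, (n : ℝ) ≤ (GenContFract.of α).dens n) ∧
      ∀ m n : ℕ, 1 < (GenContFract.of α).dens m → (GenContFract.of α).dens m = (GenContFract.of α).dens n → m = n := by
  obtain ⟨b, A, B, hb1, hBp, hbeq, hBeq, hcv, hB0, hB1, hBr, hap, hup, hdet⟩ := cf_more α hirr
  have hstrict : StrictMono (fun k => B (k + 1)) := by
    apply strictMono_nat_of_lt_succ
    intro k
    show B (k + 1) < B (k + 2)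
    rw [hBr k]
    have := hb1 (k + 1)
    nlinarith [hBp k, hBp (k + 1)]
  constructor
  · intro n
    rw [hBeq]
    have h : n ≤ B n := by
      rcases n with _ | n
      · exact Nat.zero_le _
      · have h1 : n + 1 ≤ B (n + 1) := by
          induction n with
          | zero => exact hBp 1
          | succ n ih =>
            have h2 : B (n + 1) < B (n + 1 + 1) := hstrict (Nat.lt_succ_self n)
            omega
        exact h1
    exact_mod_cast h
  · intro m n hm h
    rw [hBeq] at hm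
    rw [hBeq, hBeq] at h
    have hm' : 1 < B m := by exact_mod_cast hm
    have h' : B m = B n := by exact_mod_cast h
    rcases m with _ | m
    · rw [hB0] at hm'
      omega
    · rcases n with _ | n
      · rw [hB0] at h'
        omega
      · have h3 := hstrict.injective h'
        omega

end Pool.Agent.D0H53.AQ
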